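import Pool.Agent.H18.LA.Stc

/-!
# LEMMA A (ROB => DIM, chapter A, think 1842, section 3.2; MP_8f2e1c_an)

No regular windows around the critical point: for windows `Φ` (level `K`) over a small ball with `Φ a = c` there is no
branch `g` of `f^-m` on the window (univalent) which is at bounded distance of the typical point `z` in its scale.

PROOF. `z` visits `Φ {‖u‖ ≤ ρ0}` infinitely often, not all visits are univalent (`ncv`); first non-univalent visit `n'`, `orb`: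
`i < n'` the largest critical time, the window `ψ` around `c` over `Φ`, `f^(l+1) (ψ x) = Φ (bet a1 x)`, `ψ x0 = f^i z`. With
`A = ‖Φ'(0)‖`, `B = ‖ψ'(0)‖`: `B` much larger than `A`: attraction (`noatt`). `B` comparable with `A`: the frame `g ∘ Φ⁻¹ ∘ ψ` is regular.
`B` much smaller than `A`: the visit at the time `i` is univalent, `gs`, the frame `gs ∘ Φ⁻¹ ∘ ψ` is regular. Contradiction with the
frame `g ∘ bet a1` (`cmp`).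
-/

set_option autoImplicit false

open Filter Topology Metric Set MeasureTheory

namespace Pool.Agent.H18.LA

open Pool.Agent.H56.UD Pool.Agent.H55.PB Pool.Agent.H56.WP
open Pool.Agent.H47.TH (image_open)

variable {f : ℂ → ℂ} {U J P Cr E : Set ℂ} {δ b0 : ℝ} {η : ℂ → ℂ → ℂ} {ρ : ℝ} {X hh μ : ℂ → ℂ}

theorem Wd.mono {K : ℕ} {θ ε ε' : ℝ} {y : ℂ} {Φ : ℂ → ℂ} (h : Wd f U J P δ K θ y ε Φ) (he : ε ≤ ε') :
    Wd f U J P δ K θ y ε' Φ :=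
  ⟨h.diff, h.inj, fun v hv => ⟨(h.val v hv).1, ball_subset_ball he (h.val v hv).2⟩, h.col⟩

/-- lifts of windows are windows -/
theorem wd_lift {K m : ℕ} {θ ε : ℝ} {y : ℂ} {Φ g : ℂ → ℂ} (hW : Wd f U J P δ K θ y ε Φ)
    (hd : DifferentiableOn ℂ g (ball 0 1))
    (hg : ∀ v ∈ ball (0 : ℂ) 1, g v ∈ dm f U J δ (m + K) ∧ f^[m] (g v) = Φ v) : Wd f U J P δ (m + K) θ y ε g := by
  have he : ∀ v ∈ ball (0 : ℂ) 1, f^[m + K] (g v) = f^[K] (Φ v) := by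
    intro v hv
    rw [add_comm, Function.iterate_add_apply, (hg v hv).2]
  refine ⟨hd, fun v hv w hw h => hW.inj hv hw ?_, fun v hv => ⟨(hg v hv).1, ?_⟩, fun u h1 h2 => ?_⟩
  · rw [← (hg v hv).2, ← (hg w hw).2, h]
  · rw [he v hv]
    exact (hW.val v hv).2
  · rw [he u (mem_ball_zero_iff.2 h2)]
    exact hW.col u h1 h2

/-- the first visit which is not univalent -/
theorem first (h : PS f U J P Cr δ η ρ) (hX : FX f U J E δ X hh μ b0) {θ ρ0 : ℝ} (hθ : 0 < θ) (hθ1 : θ < 1)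
    (hθρ : θ ≤ ρ0) (h1 : ρ0 < 1) {z c : ℂ} (hz : z ∈ E) (hcJ : c ∈ J)
    (hrec : ∀ ε : ℝ, 0 < ε → ∀ N : ℕ, ∃ n ≥ N, f^[n] z ∈ ball c ε) :
    ∃ ε0 : ℝ, 0 < ε0 ∧ ε0 ≤ δ ∧ ∀ (K : ℕ) (y a : ℂ) (ε s : ℝ) (Φ : ℂ → ℂ), y ∈ J → ε ≤ ε0 → Wd f U J P δ K θ y ε Φ → ‖a‖ ≤ θ →
      Φ a = c → 0 < s → ball c s ⊆ Φ '' ball 0 ρ0 →
      ∃ (i l : ℕ) (g1 : ℂ → ℂ), (∀ v ∈ ball (0 : ℂ) 1, f^[l] (g1 v) = Φ v) ∧
        ∃ c1 ∈ Cr, ∃ (a1 : ℂ) (v ψ : ℂ → ℂ), Cv f U J P δ η ρ (K + l) θ y ε g1 ρ0 c1 a1 v ψ ∧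
          ∃ x0 : ℂ, ‖x0‖ < 1 ∧ ‖bet a1 x0‖ ≤ ρ0 ∧ ψ x0 = f^[i] z ∧
          (∀ u1 : ℂ, ‖u1‖ ≤ ρ0 → f^[i] z = Φ u1 → Vis f U J P δ K θ y ε Φ ρ0 z i) := by
  have h0 : 0 < ρ0 := hθ.trans_le hθρ
  obtain ⟨ε1, hε1, hε1δ, ho⟩ := orb h hθ hθ1 h0 h1
  obtain ⟨ε2, hε2, hn⟩ := ncv h hX (θ := θ) h0 h1
  refine ⟨min ε1 ε2, lt_min hε1 hε2, (min_le_left _ _).trans hε1δ, ?_⟩
  intro K y a ε s Φ hy hε hW ha hac hs hsub
  obtain ⟨n0, hn0⟩ := hn z hz K y a c ε Φ (hε.trans (min_le_right _ _)) hW (ha.trans hθρ) hac hcJ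
  have hex : ∃ n, (∃ u0 : ℂ, ‖u0‖ ≤ ρ0 ∧ f^[n] z = Φ u0) ∧ ¬ Vis f U J P δ K θ y ε Φ ρ0 z n := by
    obtain ⟨n, hn1, hn2⟩ := hrec s hs n0
    obtain ⟨u, hu, hu2⟩ := hsub hn2
    exact ⟨n, ⟨u, (mem_ball_zero_iff.1 hu).le, hu2.symm⟩, hn0 n hn1⟩
  classical
  obtain ⟨⟨u0, hu0, hzu⟩, hnv⟩ := Nat.find_spec hex
  have hmin : ∀ i < Nat.find hex, (∃ u1 : ℂ, ‖u1‖ ≤ ρ0 ∧ f^[i] z = Φ u1) → Vis f U J P δ K θ y ε Φ ρ0 z i := by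
    intro i hi hu
    by_contra hcon
    exact Nat.find_min hex hi ⟨hu, hcon⟩
  rcases ho K y ε Φ u0 z (Nat.find hex) hy (hε.trans (min_le_left _ _)) hW (hX.EJ hz) hu0 hzu with
    ⟨g, hg1, hg2, hg3⟩ | ⟨i, l, hil, g, hg1, hg2, hg3, c1, hc1, a1, v, ψ, hCv, x0, hx0, hx1, hx2⟩
  · exact absurd ⟨u0, g, hu0, hg1, hg2, hg3⟩ hnv
  · refine ⟨i, l, g, fun v hv => (hg2 v hv).2, c1, hc1, a1, v, ψ, hCv, x0, hx0, by rw [hx1]; exact hu0, hx2, ?_⟩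
    intro u1 hu1 hu2
    exact hmin i (by omega) ⟨u1, hu1, hu2⟩

/-- the orbit stays away from the other critical points, uniformly -/
theorem away (h : PS f U J P Cr δ η ρ) {z c : ℂ}
    (hc' : ∀ c' ∈ Cr, c' ≠ c → ∃ ε : ℝ, 0 < ε ∧ ∀ n, f^[n] z ∉ ball c' ε) :
    ∃ ε : ℝ, 0 < ε ∧ ∀ c' ∈ Cr, c' ≠ c → ∀ n, f^[n] z ∉ ball c' ε := by
  have h1 : ∀ᶠ ε in 𝓝[>] (0 : ℝ), ∀ c' ∈ Cr, c' ≠ c → ∀ n, f^[n] z ∉ ball c' ε := by
    rw [h.Cf.eventually_all]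
    intro c' hcc
    by_cases hcc2 : c' = c
    · exact Eventually.of_forall fun ε hne => absurd hcc2 hne
    · obtain ⟨ε, hε, h2⟩ := hc' c' hcc hcc2
      filter_upwards [Ioo_mem_nhdsGT hε] with ε' hε' _ n hn
      exact h2 n (ball_subset_ball hε'.2.le hn)
  obtain ⟨ε, h2, h3⟩ := (h1.and self_mem_nhdsWithin).exists
  exact ⟨ε, h3, h2⟩

/-- LEMMA A: `z` is a uniformly typical point whose orbit accumulates at `c` and stays away from the other critical points -/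
theorem lemA (h : PS f U J P Cr δ η ρ) (hX : FX f U J E δ X hh μ b0) {θ C : ℝ} (hθ : 0 < θ) (hθ1 : θ < 1) {z c : ℂ}
    (hz : z ∈ E) (hc : c ∈ Cr) (hc' : ∀ c' ∈ Cr, c' ≠ c → ∃ ε : ℝ, 0 < ε ∧ ∀ n, f^[n] z ∉ ball c' ε)
    (hrec : ∀ ε : ℝ, 0 < ε → ∀ N : ℕ, ∃ n ≥ N, f^[n] z ∈ ball c ε) :
    ∃ ε0 : ℝ, 0 < ε0 ∧ ∀ (K m : ℕ) (y a : ℂ) (ε : ℝ) (Φ g : ℂ → ℂ), y ∈ J → ε ≤ ε0 → Wd f U J P δ K θ y ε Φ → ‖a‖ ≤ θ →
      Φ a = c → DifferentiableOn ℂ g (ball 0 1) →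
      (∀ v ∈ ball (0 : ℂ) 1, g v ∈ dm f U J δ (m + K) ∧ f^[m] (g v) = Φ v) → ¬ ‖g 0 - z‖ ≤ C * ‖deriv g 0‖ := by
  obtain ⟨ρ0, ρm, D, k⟩ := kon_ex hθ hθ1
  have hD1 := k.D1
  have hD0 : 0 < D := by linarith
  have hρ01 : ρ0 < 1 := k.r0.trans_lt k.r1
  have hθρ : θ ≤ ρ0 := by rw [k.e0]; linarith
  have hρm0 : 0 < ρm := by linarith [k.rh]
  have hcJ : c ∈ J := h.CJ hc
  obtain ⟨εa, hεa, haw⟩ := away h hc'
  obtain ⟨ε1, hε1, hε1δ, hfirst⟩ := first h hX hθ hθ1 hθρ hρ01 hz hcJ hrec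
  obtain ⟨ε2, hε2, hna⟩ := noatt h
  obtain ⟨M, hM⟩ : ∃ M : ℝ, M = max (D ^ 3) ((D + C) * (32 * D ^ 2 / (1 - θ))) := ⟨_, rfl⟩
  obtain ⟨ε3, hε3, hcmp⟩ := cmp h hX (C := max C (M * D ^ 2)) hθ hθ1 (rK_pos k)
    (rK_half.trans_lt (by norm_num : (1 : ℝ) / 2 < 1))
  -- the threshold for the sizes
  obtain ⟨τ, hτ, hτ1, hτ2, hτ3, hτ4⟩ : ∃ τ : ℝ, 0 < τ ∧ D * τ < εa ∧ 2 * D * τ < δ ∧ τ ≤ ε3 ∧ 64 * D ^ 3 * τ ≤ ε3 := by
    have hδ := h.hδ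
    refine ⟨min (min (εa / (2 * D)) (δ / (4 * D))) (ε3 / (64 * D ^ 3)), by positivity, ?_, ?_, ?_, ?_⟩
    · have h1 : min (min (εa / (2 * D)) (δ / (4 * D))) (ε3 / (64 * D ^ 3)) ≤ εa / (2 * D) :=
        (min_le_left _ _).trans (min_le_left _ _)
      have h2 := mul_le_mul_of_nonneg_left h1 hD0.le
      have h3 : D * (εa / (2 * D)) = εa / 2 := by field_simp
      linarith
    · have h1 : min (min (εa / (2 * D)) (δ / (4 * D))) (ε3 / (64 * D ^ 3)) ≤ δ / (4 * D) :=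
        (min_le_left _ _).trans (min_le_right _ _)
      have h2 := mul_le_mul_of_nonneg_left h1 (by positivity : 0 ≤ 2 * D)
      have h3 : 2 * D * (δ / (4 * D)) = δ / 2 := by field_simp; ring
      linarith
    · refine (min_le_right _ _).trans (div_le_self hε3.le ?_)
      have : 1 ≤ D ^ 3 := one_le_pow₀ hD1
      linarith
    · have h1 : min (min (εa / (2 * D)) (δ / (4 * D))) (ε3 / (64 * D ^ 3)) ≤ ε3 / (64 * D ^ 3) := min_le_right _ _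
      have h2 := mul_le_mul_of_nonneg_left h1 (by positivity : 0 ≤ 64 * D ^ 3)
      have h3 : 64 * D ^ 3 * (ε3 / (64 * D ^ 3)) = ε3 := by field_simp
      linarith
  obtain ⟨ε4, hε4, hsm⟩ := sm h (ρ0 := ρm) (ε1 := τ) hρm0 k.r1 hτ
  refine ⟨min (min ε1 ε2) ε4, lt_min (lt_min hε1 hε2) hε4, ?_⟩
  intro K m y a ε Φ g hy hε hW ha hac hgd hg hgz
  have hεε1 : ε ≤ ε1 := hε.trans ((min_le_left _ _).trans (min_le_left _ _))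
  have hεε2 : ε ≤ ε2 := hε.trans ((min_le_left _ _).trans (min_le_right _ _))
  have hεε4 : ε ≤ ε4 := hε.trans (min_le_right _ _)
  have ham := k.am ha
  have hA0 : 0 < ‖deriv Φ 0‖ := (k.hD Φ hW.diff hW.inj 0 k.zm 0 k.zm).1
  have hs0 : 0 < (1 - θ) / (32 * D) * ‖deriv Φ 0‖ := mul_pos (div_pos (by linarith) (by linarith)) hA0
  obtain ⟨i, l, g1, hg1, c1, hc1, a1, v, ψ, hCv, x0, hx0, hbx, hψx, hvis⟩ := hfirst K y a ε _ Φ hy hεε1 hW ha hac hs0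
    (by rw [← hac]; exact inc k hW.diff hW.inj ha)
  have hψW := hCv.wd
  -- the critical point is `c`
  have hψJ : ψ 0 ∈ J := by rw [hCv.z0]; exact h.CJ hc1
  have hψs : ‖deriv ψ 0‖ ≤ τ := hsm _ _ y ε ψ hy hεε4 hψW ⟨0, k.zm, hψJ⟩
  have hx0m : x0 ∈ closedBall (0 : ℂ) ρm := mem_closedBall_zero_iff.2 (k.hx a1 x0 hCv.ca hx0 hbx)
  have hcc : c1 = c := by
    by_contra hne
    apply haw c1 hc1 hne i
    rw [mem_ball, dist_eq_norm, ← hψx, ← hCv.z0]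
    have e1 := (k.hD ψ hψW.diff hψW.inj x0 hx0m 0 k.zm).2.2.1
    rw [sub_zero] at e1
    have e2 : D * ‖deriv ψ 0‖ * ‖x0‖ ≤ D * τ * 1 :=
      mul_le_mul (mul_le_mul_of_nonneg_left hψs hD0.le) hx0.le (norm_nonneg _) (by positivity)
    linarith
  have hψ0 : ψ 0 = c := by rw [hCv.z0, hcc]
  have hacψ : Φ a = ψ 0 := by rw [hac, hψ0]
  -- `f^(l+1)` on the window `ψ`
  have hf : ∀ x ∈ ball (0 : ℂ) 1, f^[l + 1] (ψ x) = Φ (bet a1 x) := by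
    intro x hx
    have e1 := hCv.val x hx
    have e2 : bet a1 x ∈ ball (0 : ℂ) 1 := by
      rw [mem_ball_zero_iff]
      have e3 := mem_ball_zero_iff.1 hx
      refine (bet_le (t := ‖x‖) e3 hθ1 hCv.ca le_rfl).trans_lt ?_
      have e4 : ‖x‖ ^ 2 < 1 := by
        have := norm_nonneg x
        nlinarith
      rw [div_lt_one (by positivity)]
      nlinarith [sq_nonneg ‖x‖]
    rw [Function.iterate_succ_apply, e1.2, hg1 _ e2]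
  -- no attraction
  have hB : ‖deriv ψ 0‖ ≤ 64 * D * ‖deriv Φ 0‖ := by
    have hhalf : ball (0 : ℂ) (1 / 2) ⊆ ball 0 1 := ball_subset_ball (by norm_num)
    refine st1 k hW.diff hW.inj hψW.diff hψW.inj ha hacψ hCv.ca hf ?_
    exact hna _ (l + 1) _ y ψ _ (Wd.mono hψW hεε2) (image_open hψW.diff hψW.inj hhalf isOpen_ball)
      ⟨ψ 0, ⟨0, mem_ball_self (by norm_num), rfl⟩, hψJ⟩ (image_mono hhalf) (by omega)
  -- the branches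
  have hgW := wd_lift hW hgd hg
  obtain ⟨ms, gs, hsd, hs, hsi, hsz⟩ := st2 k (C := C) hW hψW.diff hψW.inj ha hacψ hCv.ca hgd hg hgW.inj hgz hx0 hbx hψx hvis
  have hsW := wd_lift hW hsd hs
  have hJ : ∀ (j : ℕ) (q : ℂ → ℂ), (∀ v ∈ ball (0 : ℂ) 1, q v ∈ dm f U J δ (j + K) ∧ f^[j] (q v) = Φ v) → q a ∈ J := by
    intro j q hq
    have e1 := hq a (k.sub ham)
    refine J_back h e1.1 ?_
    rw [add_comm, Function.iterate_add_apply, e1.2, hac]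
    exact J_it h K hcJ
  have hgs : ‖deriv g 0‖ ≤ τ := hsm _ _ y ε g hy hεε4 hgW ⟨a, ham, hJ m g hg⟩
  have hgss : ‖deriv gs 0‖ ≤ τ := hsm _ _ y ε gs hy hεε4 hsW ⟨a, ham, hJ ms gs hs⟩
  have hΦs : ‖deriv Φ 0‖ ≤ τ := hsm _ _ y ε Φ hy hεε4 hW ⟨a, ham, by rw [hac]; exact hcJ⟩
  have hA : 2 * D * ‖deriv Φ 0‖ < δ := (mul_le_mul_of_nonneg_left hΦs (by positivity)).trans_lt hτ2
  obtain ⟨G, hG⟩ := st3 k h (ε3 := ε3) hW ha hacψ hψJ hgd hgW.inj hg hgz hsd hsi hs (by rw [← hM] at hsz; exact hsz) hψW hCv.ca hf hB hA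
    (hgs.trans hτ3) ((mul_le_mul_of_nonneg_left hgss (by positivity)).trans hτ4)
  exact hcmp z hz _ _ _ _ _ hG

end Pool.Agent.H18.LA
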