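import Pool.Agent.H18.LA.Dis
import Pool.Agent.H18.LA.Gc
import Pool.Agent.H56.WP.Stp

/-!
# LEMMA A (ROB => DIM, chapter A; MP_8f2e1c_an): a regular frame and a frame with a critical point over the same window

`Cq`: `G` is univalent on `ball 0 r` with values in the domain of `f^k`, `H` is univalent on the unit disc with values in the
domain of `f^k'` off its critical points, `f^k (G x) = f^k' (H (bet a x))`, both are at bounded distance of `z` in their scale.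
`cmp`: this is impossible for small scales.

PROOF of `cmp`. By contradiction with `𝒰 = hyperfilter ℕ` (`z` fixed, `ε = 1 / (n + 1)`). `σ = ‖deriv G 0‖`, `σ' = ‖deriv H 0‖` (`> 0`).
On `ball 0 (r / 2)` put `G1 x = (G x - z) / σ`, `G2 x = (H (bet a x) - z) / σ'`; `‖bet a x‖ ≤ (θ + r ^ 2) / (1 + θ * r ^ 2) =: ρ0 < 1` (`bet_le`).
`dis` (for `H` and for `x ↦ G (r x)`): both are bounded by some `M`. `ulim`: limits `g1`, `g2`; `ulim_deriv`: `‖deriv g1 0‖ = 1`,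
`deriv g2 0 = 0` (chain rule: `deriv (bet a) 0 = 0`). `gc`, `gc0`: `g2` is constant on `ball 0 (r / 2)`. But
`‖H (bet a x) - H (bet a 0)‖ ≥ σ' / C * ‖bet a x - a‖` (`dis`) and `bet a x - a = x ^ 2 * (1 - ‖a‖ ^ 2) / (1 + conj a * x ^ 2)`, of norm
`≥ ‖x‖ ^ 2 * (1 - θ ^ 2) / 2`: `‖g2 x - g2 0‖ > 0` for `x = r / 4`: contradiction.
-/

set_option autoImplicit false

open Filter Topology Metric Set MeasureTheory

namespace Pool.Agent.H18.LA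

open Pool.Agent.H56.UD Pool.Agent.H55.PB Pool.Agent.H56.WP

/-- a regular frame `G` and a frame `H ∘ bet a` with a critical point over the same map -/
structure Cq (f : ℂ → ℂ) (U J : Set ℂ) (δ : ℝ) (z : ℂ) (k k' : ℕ) (θ r C ε : ℝ) (a : ℂ) (G H : ℂ → ℂ) : Prop where
  ha : ‖a‖ ≤ θ
  dG : DifferentiableOn ℂ G (ball 0 r)
  iG : InjOn G (ball 0 r)
  mG : ∀ x ∈ ball (0 : ℂ) r, G x ∈ dm f U J δ k
  zG : ‖G 0 - z‖ ≤ C * ‖deriv G 0‖
  sG : ‖deriv G 0‖ ≤ ε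
  dH : DifferentiableOn ℂ H (ball 0 1)
  iH : InjOn H (ball 0 1)
  mH : ∀ x ∈ ball (0 : ℂ) r, H (bet a x) ∈ dm f U J δ k' ∧ deriv (f^[k']) (H (bet a x)) ≠ 0
  zH : ‖H 0 - z‖ ≤ C * ‖deriv H 0‖
  sH : ‖deriv H 0‖ ≤ ε
  eq : ∀ x ∈ ball (0 : ℂ) r, f^[k] (G x) = f^[k'] (H (bet a x))

variable {f : ℂ → ℂ} {U J P Cr E : Set ℂ} {δ b0 : ℝ} {η : ℂ → ℂ → ℂ} {ρ : ℝ} {X hh μ : ℂ → ℂ}

private theorem bet_z (a : ℂ) : bet a 0 = a := by
  simp [bet]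

private theorem bet_dz (a : ℂ) : HasDerivAt (bet a) 0 0 := by
  have h1 : HasDerivAt (fun v : ℂ => v ^ 2 + a) 0 0 := by
    have := (hasDerivAt_pow 2 (0 : ℂ)).add_const a
    simpa using this
  have h2 : HasDerivAt (fun v : ℂ => 1 + (starRingEnd ℂ) a * v ^ 2) 0 0 := by
    have := ((hasDerivAt_pow 2 (0 : ℂ)).const_mul ((starRingEnd ℂ) a)).const_add 1
    simpa using this
  have h3 := h1.div h2 (by simp)
  have h4 : (bet a) = fun v => (v ^ 2 + a) / (1 + (starRingEnd ℂ) a * v ^ 2) := rfl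
  rw [h4]
  refine h3.congr_deriv ?_
  simp

private theorem bet_lb {θ : ℝ} (hθ : 0 < θ) (hθ1 : θ < 1) {a x : ℂ} (ha : ‖a‖ ≤ θ) (hx : ‖x‖ < 1) :
    ‖x‖ ^ 2 * (1 - θ ^ 2) / 2 ≤ ‖bet a x - a‖ := by
  have ha1 : ‖a‖ < 1 := ha.trans_lt hθ1
  have hden := den_ne2 ha1 hx
  have hdp : 0 < ‖1 + (starRingEnd ℂ) a * x ^ 2‖ := norm_pos_iff.2 hden
  have e1 : bet a x - a = x ^ 2 * (1 - ((‖a‖ ^ 2 : ℝ) : ℂ)) / (1 + (starRingEnd ℂ) a * x ^ 2) := by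
    rw [bet, div_sub' hden]
    congr 1
    have : ((‖a‖ ^ 2 : ℝ) : ℂ) = a * (starRingEnd ℂ) a := by
      rw [Complex.mul_conj, Complex.normSq_eq_norm_sq]
    rw [this]
    ring
  have e2 : ‖(1 : ℂ) - ((‖a‖ ^ 2 : ℝ) : ℂ)‖ = 1 - ‖a‖ ^ 2 := by
    have : (1 : ℂ) - ((‖a‖ ^ 2 : ℝ) : ℂ) = ((1 - ‖a‖ ^ 2 : ℝ) : ℂ) := by push_cast; ring
    rw [this, Complex.norm_real, Real.norm_of_nonneg]
    have := norm_nonneg a
    nlinarith
  have e3 : ‖1 + (starRingEnd ℂ) a * x ^ 2‖ ≤ 2 := by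
    calc ‖1 + (starRingEnd ℂ) a * x ^ 2‖ ≤ ‖(1 : ℂ)‖ + ‖(starRingEnd ℂ) a * x ^ 2‖ := norm_add_le _ _
      _ = 1 + ‖a‖ * ‖x‖ ^ 2 := by rw [norm_one, norm_mul, RCLike.norm_conj, norm_pow]
      _ ≤ 2 := by
        have := norm_nonneg a
        have := norm_nonneg x
        have h2 : ‖x‖ ^ 2 ≤ 1 := by nlinarith
        nlinarith
  rw [e1, norm_div, norm_mul, norm_pow, e2, div_le_div_iff₀ two_pos hdp]
  have h0 := norm_nonneg a
  have h1 : 0 ≤ ‖x‖ ^ 2 := by positivity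
  have h2 : 1 - θ ^ 2 ≤ 1 - ‖a‖ ^ 2 := by nlinarith
  have h3 : 0 ≤ 1 - θ ^ 2 := by nlinarith
  calc ‖x‖ ^ 2 * (1 - θ ^ 2) * ‖1 + (starRingEnd ℂ) a * x ^ 2‖ ≤ ‖x‖ ^ 2 * (1 - θ ^ 2) * 2 :=
        mul_le_mul_of_nonneg_left e3 (mul_nonneg h1 h3)
    _ ≤ ‖x‖ ^ 2 * (1 - ‖a‖ ^ 2) * 2 :=
        mul_le_mul_of_nonneg_right (mul_le_mul_of_nonneg_left h2 h1) (by norm_num)

/-- the conclusion of `dis` -/
private def DC (ρ0 C : ℝ) : Prop := ∀ g : ℂ → ℂ, DifferentiableOn ℂ g (ball 0 1) →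
    InjOn g (ball 0 1) → ∀ w ∈ closedBall (0 : ℂ) ρ0, ∀ w' ∈ closedBall (0 : ℂ) ρ0,
      0 < ‖deriv g w‖ ∧ ‖deriv g w‖ ≤ C * ‖deriv g w'‖ ∧ ‖g w - g w'‖ ≤ C * ‖deriv g 0‖ * ‖w - w'‖ ∧
      ‖deriv g 0‖ * ‖w - w'‖ ≤ C * ‖g w - g w'‖

private theorem frG {r C1 : ℝ} (hr : 0 < r) (hC1 : 1 ≤ C1) (h : DC (1 / 2) C1) (hr1 : r < 1) {G : ℂ → ℂ}
    (dG : DifferentiableOn ℂ G (ball 0 r)) (iG : InjOn G (ball 0 r)) :
    0 < ‖deriv G 0‖ ∧ ∀ x ∈ ball (0 : ℂ) (r / 2), ‖G x - G 0‖ ≤ C1 * ‖deriv G 0‖ := by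
  have hrc : (r : ℂ) ≠ 0 := by exact_mod_cast hr.ne'
  have hm : ∀ x ∈ ball (0 : ℂ) 1, (r : ℂ) * x ∈ ball (0 : ℂ) r := by
    intro x hx
    rw [mem_ball_zero_iff] at hx ⊢
    rw [norm_mul, Complex.norm_real, Real.norm_of_nonneg hr.le]
    nlinarith
  have hd : DifferentiableOn ℂ (fun x : ℂ => G ((r : ℂ) * x)) (ball 0 1) :=
    dG.comp (differentiableOn_id.const_mul _) hm
  have hi : InjOn (fun x : ℂ => G ((r : ℂ) * x)) (ball 0 1) := by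
    intro x hx y hy he
    exact mul_left_cancel₀ hrc (iG (hm x hx) (hm y hy) he)
  have h0 : (0 : ℂ) ∈ closedBall (0 : ℂ) (1 / 2) := mem_closedBall_self (by norm_num)
  have hder : deriv (fun x : ℂ => G ((r : ℂ) * x)) 0 = (r : ℂ) * deriv G 0 := by
    have hG0 : HasDerivAt G (deriv G 0) ((r : ℂ) * 0) := by
      rw [mul_zero]
      exact (dG.differentiableAt (ball_mem_nhds 0 hr)).hasDerivAt
    have h1 : HasDerivAt (fun x : ℂ => (r : ℂ) * x) (r : ℂ) 0 := by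
      simpa using (hasDerivAt_id (0 : ℂ)).const_mul (r : ℂ)
    have h2 := hG0.comp (0 : ℂ) h1
    have h3 : deriv (fun x : ℂ => G ((r : ℂ) * x)) 0 = deriv G 0 * (r : ℂ) := h2.deriv
    rw [h3, mul_comm]
  have hn : ‖deriv (fun x : ℂ => G ((r : ℂ) * x)) 0‖ = r * ‖deriv G 0‖ := by
    rw [hder, norm_mul, Complex.norm_real, Real.norm_of_nonneg hr.le]
  refine ⟨?_, ?_⟩
  · have := (h _ hd hi 0 h0 0 h0).1
    rw [hn] at this
    exact pos_of_mul_pos_right (by simpa using this) hr.le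
  · intro x hx
    have hx1 : x / (r : ℂ) ∈ closedBall (0 : ℂ) (1 / 2) := by
      rw [mem_closedBall_zero_iff, norm_div, Complex.norm_real, Real.norm_of_nonneg hr.le, div_le_iff₀ hr]
      have := mem_ball_zero_iff.1 hx
      linarith
    have h1 := (h _ hd hi _ hx1 0 h0).2.2.1
    simp only [mul_zero, sub_zero] at h1
    rw [mul_div_cancel₀ _ hrc] at h1
    rw [hn, norm_div, Complex.norm_real, Real.norm_of_nonneg hr.le] at h1
    have h2 : C1 * (r * ‖deriv G 0‖) * (‖x‖ / r) = C1 * ‖deriv G 0‖ * ‖x‖ := by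
      field_simp
    rw [h2] at h1
    refine h1.trans ?_
    have h3 : ‖x‖ ≤ 1 := by
      have := mem_ball_zero_iff.1 hx
      linarith
    have h4 : 0 ≤ C1 * ‖deriv G 0‖ := by positivity
    nlinarith

private theorem frH {θ r C2 ρ0 : ℝ} (hθ : 0 < θ) (hθ1 : θ < 1) (hr : 0 < r) (hr1 : r < 1) (hC2 : 1 ≤ C2)
    (hρ : ρ0 = (θ + r ^ 2) / (1 + θ * r ^ 2)) (h : DC ρ0 C2) {a : ℂ} (ha : ‖a‖ ≤ θ) {H : ℂ → ℂ}
    (dH : DifferentiableOn ℂ H (ball 0 1)) (iH : InjOn H (ball 0 1)) :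
    0 < ‖deriv H 0‖ ∧ ∀ x ∈ ball (0 : ℂ) (r / 2), bet a x ∈ ball (0 : ℂ) 1 ∧ ‖H (bet a x) - H 0‖ ≤ C2 * ‖deriv H 0‖ ∧
      ‖deriv H 0‖ * ‖bet a x - a‖ ≤ C2 * ‖H (bet a x) - H a‖ := by
  have hρ0 : 0 < ρ0 := by rw [hρ]; positivity
  have hρ1 : ρ0 < 1 := by
    rw [hρ, div_lt_one (by positivity)]
    have : r ^ 2 < 1 := by nlinarith
    nlinarith
  have h0 : (0 : ℂ) ∈ closedBall (0 : ℂ) ρ0 := mem_closedBall_self hρ0.le
  have hbm : ∀ x ∈ ball (0 : ℂ) (r / 2), bet a x ∈ closedBall (0 : ℂ) ρ0 := by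
    intro x hx
    rw [mem_closedBall_zero_iff, hρ]
    refine bet_le hr1 hθ1 ha ?_
    have := mem_ball_zero_iff.1 hx
    linarith
  have ha0 : a ∈ closedBall (0 : ℂ) ρ0 := by
    have := hbm 0 (mem_ball_self (by linarith))
    rwa [bet_z] at this
  have hp := (h H dH iH 0 h0 0 h0).1
  refine ⟨hp, fun x hx => ⟨?_, ?_, ?_⟩⟩
  · exact bet_lt (ha.trans_lt hθ1) (mem_ball_zero_iff.2 (by have := mem_ball_zero_iff.1 hx; linarith))
  · have h1 := (h H dH iH _ (hbm x hx) 0 h0).2.2.1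
    rw [sub_zero] at h1
    refine h1.trans ?_
    have h3 : ‖bet a x‖ ≤ 1 := (mem_closedBall_zero_iff.1 (hbm x hx)).trans hρ1.le
    have h4 : 0 ≤ C2 * ‖deriv H 0‖ := by positivity
    nlinarith
  · exact (h H dH iH _ (hbm x hx) a ha0).2.2.2

theorem cmp (h : PS f U J P Cr δ η ρ) (hX : FX f U J E δ X hh μ b0) {θ r C : ℝ} (hθ : 0 < θ) (hθ1 : θ < 1) (hr : 0 < r)
    (hr1 : r < 1) : ∃ ε : ℝ, 0 < ε ∧ ∀ z ∈ E, ∀ (k k' : ℕ) (a : ℂ) (G H : ℂ → ℂ), ¬ Cq f U J δ z k k' θ r C ε a G H := by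
  by_contra hcon
  push Not at hcon
  obtain ⟨C1, hC1, hD1⟩ := dis (ρ0 := 1 / 2) (by norm_num) (by norm_num)
  have hρ0 : 0 < (θ + r ^ 2) / (1 + θ * r ^ 2) := by positivity
  have hρ1 : (θ + r ^ 2) / (1 + θ * r ^ 2) < 1 := by
    rw [div_lt_one (by positivity)]
    have : r ^ 2 < 1 := by nlinarith
    nlinarith
  obtain ⟨C2, hC2, hD2⟩ := dis hρ0 hρ1
  have hex : ∀ n : ℕ, ∃ z ∈ E, ∃ (k k' : ℕ) (a : ℂ) (G H : ℂ → ℂ), Cq f U J δ z k k' θ r C (1 / ((n : ℝ) + 1)) a G H :=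
    fun n => hcon _ (by positivity)
  choose z hz k k' a G H hq using hex
  have A1 : ∀ n, 0 < ‖deriv (G n) 0‖ ∧ ∀ x ∈ ball (0 : ℂ) (r / 2), ‖G n x - G n 0‖ ≤ C1 * ‖deriv (G n) 0‖ :=
    fun n => frG hr hC1 hD1 hr1 (hq n).dG (hq n).iG
  have A2 := fun n => frH hθ hθ1 hr hr1 hC2 rfl hD2 (hq n).ha (hq n).dH (hq n).iH
  have hC0 : 0 ≤ C := by
    have h1 := (hq 0).zG
    have h2 := (A1 0).1
    have h3 := norm_nonneg (G 0 0 - z 0)
    by_contra hn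
    push Not at hn
    nlinarith
  set 𝒰 : Ultrafilter ℕ := hyperfilter ℕ with h𝒰
  have hU : (𝒰 : Filter ℕ) ≤ atTop := Nat.hyperfilter_le_atTop
  have hlim : Tendsto (fun n : ℕ => 1 / ((n : ℝ) + 1)) (𝒰 : Filter ℕ) (𝓝 0) :=
    tendsto_one_div_add_atTop_nhds_zero_nat.mono_left hU
  set σ : ℕ → ℝ := fun n => ‖deriv (G n) 0‖ with hσ
  set σ' : ℕ → ℝ := fun n => ‖deriv (H n) 0‖ with hσ'
  have hσt : Tendsto σ (𝒰 : Filter ℕ) (𝓝 0) :=
    squeeze_zero (fun n => norm_nonneg _) (fun n => (hq n).sG) hlim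
  have hσt' : Tendsto σ' (𝒰 : Filter ℕ) (𝓝 0) :=
    squeeze_zero (fun n => norm_nonneg _) (fun n => (hq n).sH) hlim
  have hσp : ∀ n, 0 < σ n := fun n => (A1 n).1
  have hσp' : ∀ n, 0 < σ' n := fun n => (A2 n).1
  have hσc : ∀ n, ((σ n : ℝ) : ℂ) ≠ 0 := fun n => by exact_mod_cast (hσp n).ne'
  have hσc' : ∀ n, ((σ' n : ℝ) : ℂ) ≠ 0 := fun n => by exact_mod_cast (hσp' n).ne'
  have hr2 : 0 < r / 2 := by linarith
  have hsub : ball (0 : ℂ) (r / 2) ⊆ ball 0 r := ball_subset_ball (by linarith)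
  have hsub1 : ball (0 : ℂ) (r / 2) ⊆ ball 0 1 := ball_subset_ball (by linarith)
  set G1 : ℕ → ℂ → ℂ := fun n x => (G n x - z n) / (σ n : ℂ) with hG1
  set G2 : ℕ → ℂ → ℂ := fun n x => (H n (bet (a n) x) - z n) / (σ' n : ℂ) with hG2
  set M : ℝ := C1 + C2 + C with hM
  have hMp : 0 < M := by rw [hM]; linarith
  have B1 : ∀ n, DifferentiableOn ℂ (G1 n) (ball 0 (r / 2)) := fun n =>
    (((hq n).dG.mono hsub).sub_const _).div_const _
  have ha1 : ∀ n, ‖a n‖ < 1 := fun n => (hq n).ha.trans_lt hθ1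
  have B2' : ∀ n, DifferentiableOn ℂ (fun x => H n (bet (a n) x)) (ball 0 (r / 2)) := fun n =>
    (hq n).dH.comp ((bet_diff (ha1 n)).mono hsub1) fun x hx => bet_lt (ha1 n) (hsub1 hx)
  have B2 : ∀ n, DifferentiableOn ℂ (G2 n) (ball 0 (r / 2)) := fun n => ((B2' n).sub_const _).div_const _
  have C1' : ∀ n, ∀ x ∈ ball (0 : ℂ) (r / 2), ‖G1 n x‖ ≤ M := by
    intro n x hx
    show ‖(G n x - z n) / (σ n : ℂ)‖ ≤ M
    rw [norm_div, Complex.norm_real, Real.norm_of_nonneg (hσp n).le, div_le_iff₀ (hσp n)]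
    have h1 := (A1 n).2 x hx
    have h2 := (hq n).zG
    have h3 : ‖G n x - z n‖ ≤ ‖G n x - G n 0‖ + ‖G n 0 - z n‖ := by
      have := norm_add_le (G n x - G n 0) (G n 0 - z n)
      rwa [sub_add_sub_cancel] at this
    have h4 : 0 ≤ C2 * σ n := mul_nonneg (by linarith) (hσp n).le
    calc ‖G n x - z n‖ ≤ C1 * σ n + C * σ n := h3.trans (add_le_add h1 h2)
      _ ≤ M * σ n := by rw [hM]; linarith
  have C2' : ∀ n, ∀ x ∈ ball (0 : ℂ) (r / 2), ‖G2 n x‖ ≤ M := by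
    intro n x hx
    show ‖(H n (bet (a n) x) - z n) / (σ' n : ℂ)‖ ≤ M
    rw [norm_div, Complex.norm_real, Real.norm_of_nonneg (hσp' n).le, div_le_iff₀ (hσp' n)]
    have h1 := ((A2 n).2 x hx).2.1
    have h2 := (hq n).zH
    have h3 : ‖H n (bet (a n) x) - z n‖ ≤ ‖H n (bet (a n) x) - H n 0‖ + ‖H n 0 - z n‖ := by
      have := norm_add_le (H n (bet (a n) x) - H n 0) (H n 0 - z n)
      rwa [sub_add_sub_cancel] at this
    have h4 : 0 ≤ C1 * σ' n := mul_nonneg (by linarith) (hσp' n).le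
    calc ‖H n (bet (a n) x) - z n‖ ≤ C2 * σ' n + C * σ' n := h3.trans (add_le_add h1 h2)
      _ ≤ M * σ' n := by rw [hM]; linarith
  obtain ⟨g1, g1d, -, g1l⟩ := ulim 𝒰 (isOpen_ball (x := (0 : ℂ)) (ε := r / 2)) (G := G1) (M := M)
    (Eventually.of_forall fun n => ⟨B1 n, C1' n⟩)
  obtain ⟨g2, g2d, -, g2l⟩ := ulim 𝒰 (isOpen_ball (x := (0 : ℂ)) (ε := r / 2)) (G := G2) (M := M)
    (Eventually.of_forall fun n => ⟨B2 n, C2' n⟩)
  have h00 : (0 : ℂ) ∈ ball (0 : ℂ) (r / 2) := mem_ball_self hr2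
  have E1 : Tendsto (fun n => deriv (G1 n) 0) (𝒰 : Filter ℕ) (𝓝 (deriv g1 0)) :=
    (ulim_deriv 𝒰 isOpen_ball (Eventually.of_forall B1) g1l).tendsto_at h00
  have E2 : Tendsto (fun n => deriv (G2 n) 0) (𝒰 : Filter ℕ) (𝓝 (deriv g2 0)) :=
    (ulim_deriv 𝒰 isOpen_ball (Eventually.of_forall B2) g2l).tendsto_at h00
  have F1 : ∀ n, ‖deriv (G1 n) 0‖ = 1 := by
    intro n
    have hd : DifferentiableAt ℂ (G n) 0 := (hq n).dG.differentiableAt (ball_mem_nhds 0 hr)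
    have h1 : deriv (G1 n) 0 = deriv (G n) 0 / (σ n : ℂ) := by
      show deriv (fun x => (G n x - z n) / (σ n : ℂ)) 0 = _
      rw [deriv_div_const, deriv_sub_const]
    rw [h1, norm_div, Complex.norm_real, Real.norm_of_nonneg (hσp n).le]
    exact div_self (hσp n).ne'
  have F2 : ∀ n, deriv (G2 n) 0 = 0 := by
    intro n
    have hH : HasDerivAt (H n) (deriv (H n) (a n)) (bet (a n) 0) := by
      rw [bet_z]
      exact ((hq n).dH.differentiableAt (isOpen_ball.mem_nhds (mem_ball_zero_iff.2 (ha1 n)))).hasDerivAt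
    have h1 := hH.comp (0 : ℂ) (bet_dz (a n))
    rw [mul_zero] at h1
    have h2 : deriv (fun x => H n (bet (a n) x)) 0 = 0 := h1.deriv
    show deriv (fun x => (H n (bet (a n) x) - z n) / (σ' n : ℂ)) 0 = 0
    rw [deriv_div_const, deriv_sub_const, h2, zero_div]
  have G1z : deriv g1 0 ≠ 0 := by
    have h1 : Tendsto (fun n => ‖deriv (G1 n) 0‖) (𝒰 : Filter ℕ) (𝓝 ‖deriv g1 0‖) := E1.norm
    have h2 : ‖deriv g1 0‖ = 1 := by
      refine tendsto_nhds_unique h1 ?_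
      simp only [F1]
      exact tendsto_const_nhds
    intro h3
    rw [h3, norm_zero] at h2
    exact zero_ne_one h2
  have G2z : deriv g2 0 = 0 := by
    refine tendsto_nhds_unique E2 ?_
    simp only [F2]
    exact tendsto_const_nhds
  have hcp : ∀ n, Cp f U J δ (z n) (k n) (k' n) (σ n) (σ' n) 0 (r / 2) M (G1 n) (G2 n) := by
    intro n
    have e1 : ∀ u, z n + (σ n : ℂ) * G1 n u = G n u := by
      intro u
      show z n + (σ n : ℂ) * ((G n u - z n) / (σ n : ℂ)) = G n u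
      rw [mul_div_cancel₀ _ (hσc n)]
      ring
    have e2 : ∀ u, z n + (σ' n : ℂ) * G2 n u = H n (bet (a n) u) := by
      intro u
      show z n + (σ' n : ℂ) * ((H n (bet (a n) u) - z n) / (σ' n : ℂ)) = H n (bet (a n) u)
      rw [mul_div_cancel₀ _ (hσc' n)]
      ring
    refine ⟨B1 n, B2 n, fun u hu => ⟨?_, C1' n u hu⟩, fun u hu => ⟨?_, C2' n u hu⟩, fun u hu => ?_, fun u hu => ?_⟩
    · rw [e1]; exact (hq n).mG u (hsub hu)
    · rw [e2]; exact ((hq n).mH u (hsub hu)).1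
    · rw [e1, e2]; exact (hq n).eq u (hsub hu)
    · rw [e2]; exact ((hq n).mH u (hsub hu)).2
  have key := gc h hX hz (Eventually.of_forall hσp) (Eventually.of_forall hσp') hσt hσt' hr2 hMp
    (Eventually.of_forall hcp) g1l g2l
  have key0 := gc0 hr2 g1d g2d G1z G2z key
  -- the contradiction
  have hx0 : ((r / 4 : ℝ) : ℂ) ∈ ball (0 : ℂ) (r / 2) := by
    rw [mem_ball_zero_iff, Complex.norm_real, Real.norm_of_nonneg (by linarith)]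
    linarith
  have T1 : Tendsto (fun n => ‖G2 n ((r / 4 : ℝ) : ℂ) - G2 n 0‖) (𝒰 : Filter ℕ)
      (𝓝 ‖g2 ((r / 4 : ℝ) : ℂ) - g2 0‖) := ((g2l.tendsto_at hx0).sub (g2l.tendsto_at h00)).norm
  rw [key0 _ hx0, sub_self, norm_zero] at T1
  have hpos : 0 < (r / 4) ^ 2 * (1 - θ ^ 2) / 2 / C2 := by
    have h1 : 0 < 1 - θ ^ 2 := by nlinarith
    have h2 : 0 < C2 := by linarith
    positivity
  have T2 : (r / 4) ^ 2 * (1 - θ ^ 2) / 2 / C2 ≤ 0 := by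
    refine ge_of_tendsto T1 (Eventually.of_forall fun n => ?_)
    have h1 := ((A2 n).2 _ hx0).2.2
    have h2 := bet_lb hθ hθ1 (hq n).ha (x := ((r / 4 : ℝ) : ℂ)) (by
      rw [Complex.norm_real, Real.norm_of_nonneg (by linarith)]; linarith)
    rw [Complex.norm_real, Real.norm_of_nonneg (by linarith : (0 : ℝ) ≤ r / 4)] at h2
    have h3 : G2 n ((r / 4 : ℝ) : ℂ) - G2 n 0 = (H n (bet (a n) ((r / 4 : ℝ) : ℂ)) - H n (a n)) / (σ' n : ℂ) := by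
      show (H n (bet (a n) ((r / 4 : ℝ) : ℂ)) - z n) / (σ' n : ℂ) - (H n (bet (a n) 0) - z n) / (σ' n : ℂ) = _
      rw [bet_z]
      ring
    rw [h3, norm_div, Complex.norm_real, Real.norm_of_nonneg (hσp' n).le, le_div_iff₀ (hσp' n),
      div_mul_eq_mul_div, div_le_iff₀ (by linarith : (0 : ℝ) < C2)]
    calc (r / 4) ^ 2 * (1 - θ ^ 2) / 2 * σ' n ≤ ‖bet (a n) ((r / 4 : ℝ) : ℂ) - a n‖ * σ' n :=
          mul_le_mul_of_nonneg_right h2 (hσp' n).le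
      _ = σ' n * ‖bet (a n) ((r / 4 : ℝ) : ℂ) - a n‖ := mul_comm _ _
      _ ≤ C2 * ‖H n (bet (a n) ((r / 4 : ℝ) : ℂ)) - H n (a n)‖ := h1
      _ = _ := mul_comm _ _
  linarith

end Pool.Agent.H18.LA
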