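import Pool.Agent.H80.AJ.Cover
import Pool.Agent.H80.AJ.Distort

/-!
# LEMMA A (ROB => DIM, chapter A; MP_8f2e1c_an): distortion on the discs of radius `ρ0 < 1`

PROOF of `dis`. (1) Derivatives: join `w`, `w'` by the segment (in the convex ball `closedBall 0 ρ0`), `N = ⌈8 / (1 - ρ0)⌉₊` points
with steps `≤ (1 - ρ0) / 2`; `distort` on the balls `ball w_i (1 - ρ0) ⊆ ball 0 1` (`R = 1 - ρ0`) gives the factor `KK` per step:
`‖deriv g w‖ ≤ KK ^ N * ‖deriv g w'‖`. (2) Lipschitz: mean value inequality on the convex ball (`Convex.norm_image_sub_le_of_norm_deriv_le`).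
(3) Lower bound: `s = min ‖w - w'‖ (1 - ρ0)`; `w' ∉ ball w s`, `univ_cover` on `ball w s`, `InjOn`: `g w' ∉ ball (g w) (s * ‖deriv g w‖ / 16)`, and
`s ≥ (1 - ρ0) * ‖w - w'‖ / 2`.
-/

set_option autoImplicit false

open Filter Topology Metric Set

namespace Pool.Agent.H18.LA

open Pool.Agent.H80.AJ (KK)

private theorem dis_sub {ρ0 : ℝ} {w : ℂ} (hw : w ∈ closedBall (0 : ℂ) ρ0) : ball w (1 - ρ0) ⊆ ball (0 : ℂ) 1 := by
  intro u hu
  have h1 := mem_closedBall.1 hw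
  have h2 := mem_ball.1 hu
  rw [mem_ball]
  calc dist u 0 ≤ dist u w + dist w 0 := dist_triangle _ _ _
    _ < 1 := by linarith

private theorem dis_deriv {ρ0 : ℝ} (h0 : 0 < ρ0) (h1 : ρ0 < 1) : ∃ A : ℝ, 1 ≤ A ∧ ∀ g : ℂ → ℂ, DifferentiableOn ℂ g (ball 0 1) →
    InjOn g (ball 0 1) → ∀ w ∈ closedBall (0 : ℂ) ρ0, ∀ w' ∈ closedBall (0 : ℂ) ρ0,
      ‖deriv g w‖ ≤ A * ‖deriv g w'‖ := by
  have hR : 0 < 1 - ρ0 := by linarith
  obtain ⟨N, hN⟩ : ∃ N : ℕ, 4 / (1 - ρ0) < (N : ℝ) := exists_nat_gt _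
  have hN0 : (0 : ℝ) < N := lt_trans (by positivity) hN
  have hK := Pool.Agent.H80.AJ.one_le_KK
  refine ⟨KK ^ N, one_le_pow₀ hK, ?_⟩
  intro g hg hi w hw w' hw'
  set p : ℕ → ℂ := fun i => w' + (((i : ℝ) / N : ℝ) : ℂ) * (w - w') with hp
  have hmem : ∀ i : ℕ, i ≤ N → p i ∈ closedBall (0 : ℂ) ρ0 := by
    intro i hi'
    have hconv := convex_closedBall (0 : ℂ) ρ0
    have h1 : (i : ℝ) / N ≤ 1 := by
      rw [div_le_one hN0]
      exact_mod_cast hi'
    have h2 := hconv hw' hw (a := 1 - (i : ℝ) / N) (b := (i : ℝ) / N) (by linarith)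
      (by positivity) (by ring)
    have h3 : (1 - (i : ℝ) / N) • w' + ((i : ℝ) / N) • w = p i := by
      rw [hp]
      simp only [Complex.real_smul]
      push_cast
      ring
    rw [h3] at h2
    exact h2
  have hdist : ‖w - w'‖ ≤ 2 := by
    have h1 := mem_closedBall.1 hw
    have h2 := mem_closedBall.1 hw'
    rw [← dist_eq_norm]
    calc dist w w' ≤ dist w 0 + dist 0 w' := dist_triangle _ _ _
      _ ≤ ρ0 + ρ0 := by rw [dist_comm 0 w']; gcongr
      _ ≤ 2 := by linarith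
  have hstep : ∀ i : ℕ, i < N → ‖deriv g (p (i + 1))‖ ≤ KK * ‖deriv g (p i)‖ := by
    intro i hi'
    have hsub := dis_sub (hmem i (by omega))
    apply Pool.Agent.H80.AJ.distort hR (hg.mono hsub) (hi.mono hsub)
    · rw [mem_closedBall, dist_eq_norm]
      have h3 : p (i + 1) - p i = ((1 / N : ℝ) : ℂ) * (w - w') := by
        rw [hp]
        push_cast
        ring
      rw [h3, norm_mul, Complex.norm_real, Real.norm_eq_abs, abs_of_pos (by positivity)]
      have h4 : 4 < (1 - ρ0) * N := by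
        rw [div_lt_iff₀ hR] at hN
        linarith
      rw [one_div, inv_mul_le_iff₀ hN0]
      linarith
    · exact mem_closedBall_self (by positivity)
  have hind : ∀ i : ℕ, i ≤ N → ‖deriv g (p i)‖ ≤ KK ^ i * ‖deriv g (p 0)‖ := by
    intro i
    induction i with
    | zero => intro _; simp
    | succ i ih =>
      intro h1
      have h2 := hstep i (by omega)
      have h3 := ih (by omega)
      calc ‖deriv g (p (i + 1))‖ ≤ KK * ‖deriv g (p i)‖ := h2
        _ ≤ KK * (KK ^ i * ‖deriv g (p 0)‖) := by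
            exact mul_le_mul_of_nonneg_left h3 (by linarith)
        _ = KK ^ (i + 1) * ‖deriv g (p 0)‖ := by ring
  have h4 := hind N le_rfl
  have h5 : p N = w := by
    rw [hp]
    simp only
    rw [div_self hN0.ne']
    simp
  have h6 : p 0 = w' := by rw [hp]; simp
  rw [h5, h6] at h4
  exact h4

theorem dis {ρ0 : ℝ} (h0 : 0 < ρ0) (h1 : ρ0 < 1) : ∃ C : ℝ, 1 ≤ C ∧ ∀ g : ℂ → ℂ, DifferentiableOn ℂ g (ball 0 1) →
    InjOn g (ball 0 1) → ∀ w ∈ closedBall (0 : ℂ) ρ0, ∀ w' ∈ closedBall (0 : ℂ) ρ0,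
      0 < ‖deriv g w‖ ∧ ‖deriv g w‖ ≤ C * ‖deriv g w'‖ ∧ ‖g w - g w'‖ ≤ C * ‖deriv g 0‖ * ‖w - w'‖ ∧
      ‖deriv g 0‖ * ‖w - w'‖ ≤ C * ‖g w - g w'‖ := by
  have hR : 0 < 1 - ρ0 := by linarith
  obtain ⟨A, hA1, hA⟩ := dis_deriv h0 h1
  have hA0 : 0 < A := lt_of_lt_of_le one_pos hA1
  have hAC : A ≤ 32 * A / (1 - ρ0) := by
    rw [le_div_iff₀ hR]
    nlinarith
  refine ⟨32 * A / (1 - ρ0), hA1.trans hAC, ?_⟩
  intro g hg hi w hw w' hw'
  have h00 : (0 : ℂ) ∈ closedBall (0 : ℂ) ρ0 := mem_closedBall_self h0.le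
  have hcl : closedBall (0 : ℂ) ρ0 ⊆ ball (0 : ℂ) 1 := closedBall_subset_ball h1
  have hpos : 0 < ‖deriv g w‖ := Pool.Agent.H80.AJ.deriv_ne hR (hg.mono (dis_sub hw)) (hi.mono (dis_sub hw))
    (mem_closedBall_self (by positivity))
  refine ⟨hpos, ?_, ?_, ?_⟩
  · exact (hA g hg hi w hw w' hw').trans (mul_le_mul_of_nonneg_right hAC (norm_nonneg _))
  · have h2 : ‖g w - g w'‖ ≤ A * ‖deriv g 0‖ * ‖w - w'‖ := by
      refine Convex.norm_image_sub_le_of_norm_deriv_le (𝕜 := ℂ) (s := closedBall (0 : ℂ) ρ0) ?_ ?_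
        (convex_closedBall 0 ρ0) hw' hw
      · intro u hu
        exact hg.differentiableAt (isOpen_ball.mem_nhds (hcl hu))
      · intro u hu
        exact hA g hg hi u hu 0 h00
    refine h2.trans ?_
    have h3 : 0 ≤ ‖deriv g 0‖ * ‖w - w'‖ := by positivity
    calc A * ‖deriv g 0‖ * ‖w - w'‖ = A * (‖deriv g 0‖ * ‖w - w'‖) := by ring
      _ ≤ 32 * A / (1 - ρ0) * (‖deriv g 0‖ * ‖w - w'‖) := mul_le_mul_of_nonneg_right hAC h3
      _ = 32 * A / (1 - ρ0) * ‖deriv g 0‖ * ‖w - w'‖ := by ring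
  · rcases eq_or_ne w w' with rfl | hne
    · simp
    have hd : 0 < ‖w - w'‖ := norm_pos_iff.2 (sub_ne_zero.2 hne)
    have hdist : ‖w - w'‖ ≤ 2 := by
      have h1' := mem_closedBall.1 hw
      have h2' := mem_closedBall.1 hw'
      rw [← dist_eq_norm]
      calc dist w w' ≤ dist w 0 + dist 0 w' := dist_triangle _ _ _
        _ ≤ ρ0 + ρ0 := by rw [dist_comm 0 w']; gcongr
        _ ≤ 2 := by linarith
    set s : ℝ := min ‖w - w'‖ (1 - ρ0) with hs
    have hs0 : 0 < s := lt_min hd hR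
    have hsR : s ≤ 1 - ρ0 := min_le_right _ _
    have hsd : s ≤ ‖w - w'‖ := min_le_left _ _
    have hslow : (1 - ρ0) * ‖w - w'‖ ≤ 2 * s := by
      rcases min_choice ‖w - w'‖ (1 - ρ0) with hm | hm
      · rw [← hs] at hm
        rw [hm]
        nlinarith
      · rw [← hs] at hm
        rw [hm]
        nlinarith
    have hsub : ball w s ⊆ ball (0 : ℂ) 1 := (ball_subset_ball hsR).trans (dis_sub hw)
    have hcov := Pool.Agent.H80.AJ.univ_cover hs0 (hg.mono hsub) (hi.mono hsub)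
    have hnot : g w' ∉ ball (g w) (s * ‖deriv g w‖ / 16) := by
      intro hmem
      obtain ⟨u, hu, hgu⟩ := hcov hmem
      have h2 := hi (hsub hu) (hcl hw') hgu
      rw [h2, mem_ball, dist_comm, dist_eq_norm] at hu
      linarith
    rw [mem_ball, dist_comm, dist_eq_norm, not_lt] at hnot
    have h3 : ‖deriv g 0‖ ≤ A * ‖deriv g w‖ := hA g hg hi 0 h00 w hw
    rw [div_mul_eq_mul_div, le_div_iff₀ hR]
    calc ‖deriv g 0‖ * ‖w - w'‖ * (1 - ρ0) = ‖deriv g 0‖ * ((1 - ρ0) * ‖w - w'‖) := by ring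
      _ ≤ (A * ‖deriv g w‖) * (2 * s) := by
          apply mul_le_mul h3 hslow (by positivity) (by positivity)
      _ = 32 * A * (s * ‖deriv g w‖ / 16) := by ring
      _ ≤ 32 * A * ‖g w - g w'‖ := by
          apply mul_le_mul_of_nonneg_left hnot (by positivity)

end Pool.Agent.H18.LA
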