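import Pool.Agent.H47.TH.Ful
import Pool.Agent.H32.BT.Branch

/-!
# LEMMA A (ROB => DIM, chapter A; MP_8f2e1c_an): transition maps between univalent charts
-/

set_option autoImplicit false

open Filter Topology Metric Set MeasureTheory

namespace Pool.Agent.H18.LA

open Pool.Agent.H47.TH (image_open)

/-- the inverse of an injective holomorphic map of the disc -/
theorem inv_ex {ψ : ℂ → ℂ} (hd : DifferentiableOn ℂ ψ (ball 0 1)) (hi : InjOn ψ (ball 0 1)) :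
    IsOpen (ψ '' ball 0 1) ∧ ∃ φ : ℂ → ℂ, DifferentiableOn ℂ φ (ψ '' ball 0 1) ∧
      (∀ u ∈ ball (0 : ℂ) 1, φ (ψ u) = u) ∧ ∀ w ∈ ψ '' ball 0 1, φ w ∈ ball (0 : ℂ) 1 ∧ ψ (φ w) = w := by
  have ho : ∀ s : Set ℂ, s ⊆ ball 0 1 → IsOpen s → IsOpen (ψ '' s) := fun s hs h => image_open hd hi hs h
  have hΩ : IsOpen (ψ '' ball 0 1) := ho _ Subset.rfl isOpen_ball
  obtain ⟨φ, hφ⟩ : ∃ φ, φ = Function.invFunOn ψ (ball 0 1) := ⟨_, rfl⟩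
  have h1 : ∀ w ∈ ψ '' ball 0 1, φ w ∈ ball (0 : ℂ) 1 ∧ ψ (φ w) = w := fun w hw => by
    rw [hφ]
    exact ⟨Function.invFunOn_mem hw, Function.invFunOn_eq hw⟩
  have h2 : ∀ u ∈ ball (0 : ℂ) 1, φ (ψ u) = u := fun u hu =>
    hi (h1 _ (mem_image_of_mem _ hu)).1 hu (h1 _ (mem_image_of_mem _ hu)).2
  have hc : ContinuousOn φ (ψ '' ball 0 1) := by
    rintro w ⟨u, hu, rfl⟩
    apply ContinuousAt.continuousWithinAt
    rw [ContinuousAt, h2 u hu]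
    intro N hN
    obtain ⟨N', hN'N, hN'o, hu'⟩ := _root_.mem_nhds_iff.1 hN
    have h3 : IsOpen (ψ '' (N' ∩ ball 0 1)) := ho _ inter_subset_right (hN'o.inter isOpen_ball)
    rw [Filter.mem_map]
    filter_upwards [h3.mem_nhds (mem_image_of_mem ψ ⟨hu', hu⟩)] with v hv
    obtain ⟨x, hx, rfl⟩ := hv
    show φ (ψ x) ∈ N
    rw [h2 x hx.2]
    exact hN'N hx.1
  refine ⟨hΩ, φ, fun w hw => ?_, h2, h1⟩
  exact (Pool.Agent.H32.BT.diff_of_inverse (hΩ.mem_nhds hw) hc isOpen_ball (h1 w hw).1 hd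
    (fun v hv _ => (h1 v hv).2)).differentiableWithinAt

/-- the transition map -/
theorem tra {Φ ψ : ℂ → ℂ} (hd : DifferentiableOn ℂ Φ (ball 0 1)) (hi : InjOn Φ (ball 0 1))
    (hd' : DifferentiableOn ℂ ψ (ball 0 1)) (hi' : InjOn ψ (ball 0 1)) {r ρ0 : ℝ} (hr : 0 < r) (hr1 : r ≤ 1)
    (hρ : ρ0 ≤ 1) (hs : ψ '' ball 0 r ⊆ Φ '' ball 0 ρ0) :
    ∃ T : ℂ → ℂ, DifferentiableOn ℂ T (ball 0 r) ∧ InjOn T (ball 0 r) ∧
      (∀ x ∈ ball (0 : ℂ) r, T x ∈ ball (0 : ℂ) ρ0 ∧ Φ (T x) = ψ x) ∧ deriv Φ (T 0) * deriv T 0 = deriv ψ 0 := by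
  obtain ⟨-, φ, hφd, hφ1, hφ2⟩ := inv_ex hd hi
  have hsub : ball (0 : ℂ) r ⊆ ball 0 1 := ball_subset_ball hr1
  have hsub' : ball (0 : ℂ) ρ0 ⊆ ball 0 1 := ball_subset_ball hρ
  have hv : ∀ x ∈ ball (0 : ℂ) r, φ (ψ x) ∈ ball (0 : ℂ) ρ0 ∧ Φ (φ (ψ x)) = ψ x := by
    intro x hx
    obtain ⟨u, hu, hux⟩ := hs (mem_image_of_mem _ hx)
    rw [← hux, hφ1 u (hsub' hu)]
    exact ⟨hu, rfl⟩
  have hTd : DifferentiableOn ℂ (fun x => φ (ψ x)) (ball 0 r) :=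
    hφd.comp (hd'.mono hsub) fun x hx => image_mono hsub' (hs (mem_image_of_mem _ hx))
  refine ⟨fun x => φ (ψ x), hTd, ?_, hv, ?_⟩
  · intro x hx x' hx' he
    refine hi' (hsub hx) (hsub hx') ?_
    rw [← (hv x hx).2, ← (hv x' hx').2]
    exact congrArg Φ he
  · have h0 : (0 : ℂ) ∈ ball (0 : ℂ) r := mem_ball_self hr
    have e1 : HasDerivAt Φ (deriv Φ (φ (ψ 0))) (φ (ψ 0)) :=
      (hd.differentiableAt (isOpen_ball.mem_nhds (hsub' (hv 0 h0).1))).hasDerivAt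
    have e2 : HasDerivAt (fun x => φ (ψ x)) (deriv (fun x => φ (ψ x)) 0) 0 :=
      (hTd.differentiableAt (isOpen_ball.mem_nhds h0)).hasDerivAt
    have e3 : HasDerivAt (Φ ∘ fun x => φ (ψ x)) (deriv Φ (φ (ψ 0)) * deriv (fun x => φ (ψ x)) 0) 0 :=
      HasDerivAt.comp (0 : ℂ) (h₂ := Φ) (h := fun x => φ (ψ x)) e1 e2
    have e4 : (Φ ∘ fun x => φ (ψ x)) =ᶠ[𝓝 0] ψ := by
      filter_upwards [isOpen_ball.mem_nhds h0] with x hx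
      exact (hv x hx).2
    rw [← e4.deriv_eq, e3.deriv]

end Pool.Agent.H18.LA
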