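import Mathlib

/-!
# LEMMA A* (ROB => DIM; MP_8f2e1c_an): real affine relation of two holomorphic functions with `conj g' * h'` real

`rmn`: `g`, `h` holomorphic on the open preconnected set `S`, `conj (g') h'` real valued, `g` not locally constant: `h = t g + b`, `t` real.
(`g'` may have zeros.)
-/

set_option autoImplicit false

open Filter Topology Metric Set

namespace Pool.Agent.H18.LA

theorem rmn {S : Set ℂ} (hS : IsOpen S) (hSc : IsPreconnected S) {g g' : ℂ → ℂ} (hg : DifferentiableOn ℂ g S)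
    (hg' : DifferentiableOn ℂ g' S) {w : ℂ} (hw : w ∈ S) (h0 : deriv g w ≠ 0)
    (hc : ∀ u ∈ S, (starRingEnd ℂ) (deriv g u) * deriv g' u = (starRingEnd ℂ) (deriv g' u) * deriv g u) :
    ∃ (t : ℝ) (b : ℂ), ∀ u ∈ S, g' u = t * g u + b := by
  have hd : DifferentiableOn ℂ (deriv g) S := hg.deriv hS
  have hd' : DifferentiableOn ℂ (deriv g') S := hg'.deriv hS
  have hcont : ContinuousAt (deriv g) w := (hd.differentiableAt (hS.mem_nhds hw)).continuousAt
  obtain ⟨s, hs, hs2⟩ := Metric.mem_nhds_iff.1 ((hcont.eventually_ne h0).and (hS.mem_nhds hw))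
  have hne : ∀ u ∈ ball w s, deriv g u ≠ 0 := fun u hu => (hs2 hu).1
  have hsS : ball w s ⊆ S := fun u hu => (hs2 hu).2
  have hq : DifferentiableOn ℂ (fun u => deriv g' u / deriv g u) (ball w s) := (hd'.mono hsS).div (hd.mono hsS) hne
  have hreal : ∀ u ∈ ball w s, (deriv g' u / deriv g u).im = 0 := by
    intro u hu
    rw [← Complex.conj_eq_iff_im, map_div₀, div_eq_div_iff ((map_ne_zero _).2 (hne u hu)) (hne u hu)]
    rw [← hc u (hsS hu)]
    ring
  obtain ⟨q, hq2⟩ := (hq.analyticOnNhd isOpen_ball).eq_const_of_im_eq_const (c₀ := 0) hreal isOpen_ball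
    ((convex_ball w s).isConnected ⟨w, mem_ball_self hs⟩)
  have hqw := hq2 w (mem_ball_self hs)
  have hqr : ((q.re : ℝ) : ℂ) = q := by
    rw [← Complex.conj_eq_iff_re, Complex.conj_eq_iff_im, ← hqw]
    exact hreal w (mem_ball_self hs)
  -- the identity theorem
  have hE : EqOn (deriv g') (fun u => q * deriv g u) S := by
    refine (hd'.analyticOnNhd hS).eqOn_of_preconnected_of_eventuallyEq
      ((hd.const_mul q).analyticOnNhd hS) hSc hw ?_
    filter_upwards [ball_mem_nhds w hs] with u hu
    have := hq2 u hu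
    rw [div_eq_iff (hne u hu)] at this
    exact this
  have hF : DifferentiableOn ℂ (fun u => g' u - q * g u) S := hg'.sub (hg.const_mul q)
  have hF0 : S.EqOn (deriv fun u => g' u - q * g u) 0 := by
    intro u hu
    have a1 := hg.differentiableAt (hS.mem_nhds hu)
    have a2 := hg'.differentiableAt (hS.mem_nhds hu)
    rw [deriv_fun_sub a2 (a1.const_mul q), deriv_const_mul _ a1, hE hu]
    exact sub_self _
  refine ⟨q.re, g' w - q * g w, fun u hu => ?_⟩
  have h5 := hS.is_const_of_deriv_eq_zero hSc hF hF0 hu hw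
  rw [hqr]
  have h6 : g' u - q * g u = g' w - q * g w := h5
  linear_combination h6

end Pool.Agent.H18.LA
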