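import Pool.Agent.H18.LA.Dis
import Pool.Agent.H18.LA.Gc
import Pool.Agent.H56.UD.DB

/-!
# LEMMA A* (ROB => DIM; MP_8f2e1c_an): a lift over a strip and a frame `H ∘ b` over the same map (field part of Claim X)

`Cs`: `Q` is holomorphic on the open convex set `S` with values in the domain of `f^k`, `Q t = Q t'` only if `exp t = exp t'` (so `Q` is the
lift of a collar `ψ ∘ exp`); `H` is univalent on the unit disc, `b : S → closedBall 0 ρ1`, `f^k (Q t) = f^k' (H (b t))`, both at bounded distance of `z`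
in their scale; `b` takes the same value at two points of the compact set `K` which are not congruent. `rng`: impossible for small scales.

PROOF. Limits `g1` of `(Q - z) / σ`, `g2` of `(H ∘ b - z) / σ'`; `gc`: `conj g1' * g2'` is real, so `g2 = a g1 + c`, `a ≠ 0` real; `g2 t0 = g2 t0'`, so
`g1 t0 = g1 t0'`; Hurwitz: `Q v = Q t0'`, `v → t0`, so `exp v = exp t0'`: contradiction.
-/

set_option autoImplicit false

open Filter Topology Metric Set MeasureTheory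

namespace Pool.Agent.H18.LA

open Pool.Agent.H56.UD
open Pool.Agent.H80.AJ (KK distort distort_lip deriv_ne one_le_KK)

/-- a lift `Q` over `S` and a frame `H ∘ b` over the same map -/
structure Cs (f : ℂ → ℂ) (U J : Set ℂ) (δ : ℝ) (z : ℂ) (k k' : ℕ) (S K : Set ℂ) (ρ1 κ C ε : ℝ) (b Q H : ℂ → ℂ) : Prop where
  db : DifferentiableOn ℂ b S
  bb : ∀ t ∈ S, ‖b t‖ ≤ ρ1
  eb : ∃ t ∈ K, ∃ t' ∈ K, b t = b t' ∧ κ ≤ ‖Complex.exp t - Complex.exp t'‖
  nb : ∃ t ∈ K, ∃ t' ∈ K, κ ≤ ‖b t - b t'‖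
  dQ : DifferentiableOn ℂ Q S
  iQ : ∀ t ∈ S, ∀ t' ∈ S, Q t = Q t' → Complex.exp t = Complex.exp t'
  mQ : ∀ t ∈ S, Q t ∈ dm f U J δ k
  zQ : ∃ t ∈ K, ‖Q t - z‖ ≤ C * ‖deriv Q t‖ ∧ ‖deriv Q t‖ ≤ ε
  dH : DifferentiableOn ℂ H (ball 0 1)
  iH : InjOn H (ball 0 1)
  mH : ∀ t ∈ S, H (b t) ∈ dm f U J δ k' ∧ deriv (f^[k']) (H (b t)) ≠ 0
  zH : ‖H 0 - z‖ ≤ C * ‖deriv H 0‖
  sH : ‖deriv H 0‖ ≤ ε
  eq : ∀ t ∈ S, f^[k] (Q t) = f^[k'] (H (b t))

variable {f : ℂ → ℂ} {U J P Cr E : Set ℂ} {δ b0 : ℝ} {η : ℂ → ℂ → ℂ} {ρ : ℝ} {X hh μ : ℂ → ℂ}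

/-- maps which are injective modulo the period are injective on small balls -/
theorem inj_small {S : Set ℂ} {Q : ℂ → ℂ} (hQ : ∀ t ∈ S, ∀ t' ∈ S, Q t = Q t' → Complex.exp t = Complex.exp t')
    {t : ℂ} {r : ℝ} (hr : r ≤ 1) (hs : ball t r ⊆ S) : InjOn Q (ball t r) := by
  intro u hu u' hu' he
  have h1 := hQ u (hs hu) u' (hs hu') he
  obtain ⟨n, hn⟩ := Complex.exp_eq_exp_iff_exists_int.1 h1
  rw [mem_ball, dist_eq_norm] at hu hu'
  have h2 : ‖u - u'‖ < 2 := by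
    have := norm_sub_le (u - t) (u' - t)
    rw [sub_sub_sub_cancel_right] at this
    linarith
  have h3 : u - u' = n * (2 * Real.pi * Complex.I) := by
    rw [hn]
    ring
  rw [h3, norm_mul, norm_mul, norm_mul, Complex.norm_I, mul_one, Complex.norm_ofNat, Complex.norm_real,
    Real.norm_of_nonneg Real.pi_pos.le, Complex.norm_intCast] at h2
  have hn0 : n = 0 := by
    by_contra hne
    have h4 : (1 : ℝ) ≤ |(n : ℝ)| := by exact_mod_cast Int.one_le_abs hne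
    have h5 := Real.pi_gt_three
    nlinarith
  rw [hn0] at hn
  simpa using hn

/-- Koebe chains in convex sets -/
theorem chn {S : Set ℂ} {L : Set ℂ} (hL : Convex ℝ L) (hLc : IsCompact L) {r : ℝ} (hr : 0 < r) (hr1 : r ≤ 1)
    (hLS : ∀ t ∈ L, ball t r ⊆ S) : ∃ D : ℝ, 1 ≤ D ∧ ∀ Q : ℂ → ℂ, DifferentiableOn ℂ Q S →
      (∀ t ∈ S, ∀ t' ∈ S, Q t = Q t' → Complex.exp t = Complex.exp t') → ∀ t ∈ L, ∀ t' ∈ L,
        0 < ‖deriv Q t‖ ∧ ‖deriv Q t‖ ≤ D * ‖deriv Q t'‖ ∧ ‖Q t - Q t'‖ ≤ D * ‖deriv Q t'‖ := by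
  obtain ⟨R, hR⟩ := hLc.isBounded.subset_closedBall 0
  obtain ⟨R1, hR1, hR2⟩ : ∃ R1 : ℝ, 0 < R1 ∧ R ≤ R1 := ⟨max R 1, lt_of_lt_of_le one_pos (le_max_right _ _), le_max_left _ _⟩
  obtain ⟨N, hN⟩ := exists_nat_gt (4 * R1 / r)
  have hN0 : 0 < (N : ℝ) := lt_trans (by positivity) hN
  have hKK := one_le_KK
  have hKN : 1 ≤ KK ^ N := one_le_pow₀ hKK
  have main : ∀ Q : ℂ → ℂ, DifferentiableOn ℂ Q S →
      (∀ t ∈ S, ∀ t' ∈ S, Q t = Q t' → Complex.exp t = Complex.exp t') → ∀ t ∈ L, ∀ t' ∈ L,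
        ‖deriv Q t‖ ≤ KK ^ N * ‖deriv Q t'‖ := by
    intro Q hQ hQi t ht t' ht'
    have hp : ∀ i : ℕ, i ≤ N → (1 - (i : ℝ) / N) • t' + ((i : ℝ) / N) • t ∈ L := by
      intro i hi
      have e1 : (i : ℝ) / N ≤ 1 := by rw [div_le_one hN0]; exact_mod_cast hi
      exact hL ht' ht (by linarith) (by positivity) (by ring)
    have hstep : ∀ i : ℕ, i ≤ N → ‖deriv Q ((1 - (i : ℝ) / N) • t' + ((i : ℝ) / N) • t)‖ ≤ KK ^ i * ‖deriv Q t'‖ := by
      intro i
      induction i with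
      | zero =>
        intro _
        simp
      | succ i ih =>
        intro hi
        have h1 := ih (by omega)
        have h2 := hp i (by omega)
        have h3 := distort hr (hQ.mono (hLS _ h2)) (inj_small hQi hr1 (hLS _ h2))
          (w := (1 - ((i + 1 : ℕ) : ℝ) / N) • t' + (((i + 1 : ℕ) : ℝ) / N) • t)
          (w' := (1 - (i : ℝ) / N) • t' + ((i : ℝ) / N) • t) ?_ (mem_closedBall_self (by linarith))
        · calc _ ≤ KK * ‖deriv Q ((1 - (i : ℝ) / N) • t' + ((i : ℝ) / N) • t)‖ := h3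
            _ ≤ KK * (KK ^ i * ‖deriv Q t'‖) := mul_le_mul_of_nonneg_left h1 (by linarith)
            _ = _ := by rw [pow_succ]; ring
        · rw [mem_closedBall, dist_eq_norm]
          have e1 : (1 - ((i + 1 : ℕ) : ℝ) / N) • t' + (((i + 1 : ℕ) : ℝ) / N) • t -
              ((1 - (i : ℝ) / N) • t' + ((i : ℝ) / N) • t) = (1 / (N : ℝ)) • (t - t') := by
            simp only [Complex.real_smul]
            push_cast
            field_simp
            ring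
          rw [e1, norm_smul, Real.norm_of_nonneg (by positivity)]
          have e2 : ‖t - t'‖ ≤ 2 * R1 := by
            have e3 := mem_closedBall_zero_iff.1 (hR ht)
            have e4 := mem_closedBall_zero_iff.1 (hR ht')
            have := norm_sub_le t t'
            linarith
          have e5 : 1 / (N : ℝ) * ‖t - t'‖ ≤ 1 / (N : ℝ) * (2 * R1) := mul_le_mul_of_nonneg_left e2 (by positivity)
          refine e5.trans ?_
          rw [one_div, inv_mul_le_iff₀ hN0]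
          rw [div_lt_iff₀ hr] at hN
          linarith
    have h1 := hstep N le_rfl
    rw [div_self hN0.ne', sub_self, zero_smul, one_smul, zero_add] at h1
    exact h1
  refine ⟨KK ^ N * (2 * R1 + 1), ?_, fun Q hQ hQi t ht t' ht' => ⟨?_, ?_, ?_⟩⟩
  · nlinarith
  · exact deriv_ne hr (hQ.mono (hLS _ ht)) (inj_small hQi hr1 (hLS _ ht)) (mem_closedBall_self (by linarith))
  · refine (main Q hQ hQi t ht t' ht').trans (mul_le_mul_of_nonneg_right ?_ (norm_nonneg _))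
    nlinarith
  · have h1 : ∀ x ∈ L, ‖deriv Q x‖ ≤ KK ^ N * ‖deriv Q t'‖ := fun x hx => main Q hQ hQi x hx t' ht'
    have h2 : ∀ x ∈ L, DifferentiableAt ℂ Q x := fun x hx =>
      (hQ.mono (hLS _ hx)).differentiableAt (isOpen_ball.mem_nhds (mem_ball_self hr))
    have h3 := hL.norm_image_sub_le_of_norm_deriv_le h2 h1 ht' ht
    refine h3.trans ?_
    have e2 : ‖t - t'‖ ≤ 2 * R1 + 1 := by
      have e3 := mem_closedBall_zero_iff.1 (hR ht)
      have e4 := mem_closedBall_zero_iff.1 (hR ht')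
      have := norm_sub_le t t'
      linarith
    calc KK ^ N * ‖deriv Q t'‖ * ‖t - t'‖ ≤ KK ^ N * ‖deriv Q t'‖ * (2 * R1 + 1) :=
          mul_le_mul_of_nonneg_left e2 (by positivity)
      _ = _ := by ring

/-- a compact convex set between a compact set and an open convex set -/
theorem cvx {S K : Set ℂ} (hS : IsOpen S) (hSc : Convex ℝ S) (hK : IsCompact K) (hKS : K ⊆ S) :
    ∃ L : Set ℂ, K ⊆ L ∧ IsCompact L ∧ Convex ℝ L ∧ L ⊆ S := by
  have h1 : ∀ x ∈ K, ∃ u : Finset ℂ, x ∈ interior (convexHull ℝ (u : Set ℂ)) ∧ convexHull ℝ (u : Set ℂ) ⊆ S := by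
    intro x hx
    obtain ⟨u, hu1, hu2⟩ := (convex_singleton (𝕜 := ℝ) x).exists_subset_interior_convexHull_finset_of_isCompact
      isCompact_singleton (t := S) (by rw [nhdsSet_singleton]; exact hS.mem_nhds (hKS hx))
    exact ⟨u, hu1 (mem_singleton x), hu2⟩
  choose! u hu1 hu2 using h1
  obtain ⟨T, hT1⟩ := hK.elim_nhds_subcover' (fun x _ => interior (convexHull ℝ (u x : Set ℂ)))
    (fun x hx => isOpen_interior.mem_nhds (hu1 x hx))
  classical
  refine ⟨convexHull ℝ (⋃ x ∈ T, (u x : Set ℂ)), ?_, ?_, convex_convexHull ℝ _, ?_⟩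
  · intro y hy
    obtain ⟨x, hx, hyx⟩ := mem_iUnion₂.1 (hT1 hy)
    exact convexHull_mono (subset_biUnion_of_mem (u := fun x : K => (u x : Set ℂ)) hx) (interior_subset hyx)
  · refine (Set.Finite.biUnion T.finite_toSet fun x _ => (u x).finite_toSet).isCompact_convexHull ℝ
  · refine convexHull_min (iUnion₂_subset fun x _ => (subset_convexHull ℝ _).trans (hu2 x x.2)) hSc

/-- real multiples: `conj g1' * g2'` real on a preconnected set -/
theorem rmul {S : Set ℂ} (hS : IsOpen S) (hSc : IsPreconnected S) {g g' : ℂ → ℂ} (hg : DifferentiableOn ℂ g S)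
    (hg' : DifferentiableOn ℂ g' S) (h0 : ∀ u ∈ S, deriv g u ≠ 0)
    (hc : ∀ u ∈ S, (starRingEnd ℂ) (deriv g u) * deriv g' u = (starRingEnd ℂ) (deriv g' u) * deriv g u) :
    ∃ a : ℂ, ∀ u ∈ S, ∀ v ∈ S, g' u - g' v = a * (g u - g v) := by
  rcases S.eq_empty_or_nonempty with rfl | hne
  · exact ⟨0, fun u hu => absurd hu (notMem_empty u)⟩
  have hd : DifferentiableOn ℂ (deriv g) S := hg.deriv hS
  have hd' : DifferentiableOn ℂ (deriv g') S := hg'.deriv hS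
  have hq : DifferentiableOn ℂ (fun u => deriv g' u / deriv g u) S := hd'.div hd h0
  have hreal : ∀ u ∈ S, (deriv g' u / deriv g u).im = 0 := by
    intro u hu
    rw [← Complex.conj_eq_iff_im, map_div₀, div_eq_div_iff ((map_ne_zero _).2 (h0 u hu)) (h0 u hu)]
    rw [← hc u hu]
    ring
  obtain ⟨q, hq2⟩ := (hq.analyticOnNhd hS).eq_const_of_im_eq_const (c₀ := 0) hreal hS ⟨hne, hSc⟩
  refine ⟨q, fun u hu v hv => ?_⟩
  have hF : DifferentiableOn ℂ (fun u => g' u - q * g u) S := hg'.sub (hg.const_mul q)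
  have hF0 : S.EqOn (deriv fun u => g' u - q * g u) 0 := by
    intro w hw
    have a1 := hg.differentiableAt (hS.mem_nhds hw)
    have a2 := hg'.differentiableAt (hS.mem_nhds hw)
    have a3 := hq2 w hw
    rw [div_eq_iff (h0 w hw)] at a3
    rw [deriv_fun_sub a2 (a1.const_mul q), deriv_const_mul _ a1, a3]
    exact sub_self _
  have h5 := hS.is_const_of_deriv_eq_zero hSc hF hF0 hu hv
  have h6 : g' u - q * g u = g' v - q * g v := h5
  linear_combination h6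

theorem rng (h : PS f U J P Cr δ η ρ) (hX : FX f U J E δ X hh μ b0) {S K : Set ℂ} (hS : IsOpen S) (hSc : Convex ℝ S)
    (hK : IsCompact K) (hKS : K ⊆ S) {ρ1 κ C : ℝ} (h0 : 0 < ρ1) (h1 : ρ1 < 1) (hκ : 0 < κ) :
    ∃ ε : ℝ, 0 < ε ∧ ∀ z ∈ E, ∀ (k k' : ℕ) (b Q H : ℂ → ℂ), ¬ Cs f U J δ z k k' S K ρ1 κ C ε b Q H := by
  by_contra hcon
  push Not at hcon
  -- the sets
  obtain ⟨L0, hL01, hL02, hL03, hL04⟩ := cvx hS hSc hK hKS
  obtain ⟨r, hr, hr1, hrS⟩ : ∃ r : ℝ, 0 < r ∧ r ≤ 1 ∧ cthickening (2 * r) L0 ⊆ S := by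
    obtain ⟨r, hr, hrs⟩ := hL02.exists_cthickening_subset_open hS hL04
    refine ⟨min (r / 2) 1, lt_min (by linarith) one_pos, min_le_right _ _, (cthickening_mono ?_ _).trans hrs⟩
    have := min_le_left (r / 2) (1 : ℝ)
    linarith
  obtain ⟨L, hL⟩ : ∃ L : Set ℂ, L = cthickening r L0 := ⟨_, rfl⟩
  obtain ⟨S', hS'⟩ : ∃ S' : Set ℂ, S' = thickening r L0 := ⟨_, rfl⟩
  have hLc : IsCompact L := by rw [hL]; exact hL02.cthickening
  have hLx : Convex ℝ L := by rw [hL]; exact hL03.cthickening r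
  have hS'L : S' ⊆ L := by rw [hL, hS']; exact thickening_subset_cthickening _ _
  have hS'o : IsOpen S' := by rw [hS']; exact isOpen_thickening
  have hS'c : Convex ℝ S' := by rw [hS']; exact hL03.thickening r
  have hKS' : K ⊆ S' := by rw [hS']; exact hL01.trans (self_subset_thickening hr _)
  have hLr : ∀ t ∈ L, ball t r ⊆ S := by
    intro t ht u hu
    apply hrS
    rw [hL] at ht
    have e1 : u ∈ cthickening r (cthickening r L0) := by
      refine mem_cthickening_of_dist_le u t r _ ht (mem_ball.1 hu).le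
    have e2 := cthickening_cthickening_subset hr.le hr.le L0 e1
    rwa [← two_mul] at e2
  have hLS : L ⊆ S := fun t ht => hLr t ht (mem_ball_self hr)
  obtain ⟨D, hD1, hD⟩ := chn hLx hLc hr hr1 hLr
  obtain ⟨C2, hC2, hD2⟩ := dis h0 h1
  have hex : ∀ n : ℕ, ∃ z ∈ E, ∃ (k k' : ℕ) (b Q H : ℂ → ℂ), Cs f U J δ z k k' S K ρ1 κ C (1 / ((n : ℝ) + 1)) b Q H :=
    fun n => hcon _ (by positivity)
  choose z hz k k' b Q H hq using hex
  choose ts hts hts1 hts2 using fun n => (hq n).zQ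
  choose t0 ht0 t0' ht0' hb0 hexp using fun n => (hq n).eb
  choose t1 ht1 t2 ht2 hb1 using fun n => (hq n).nb
  set 𝒰 : Ultrafilter ℕ := hyperfilter ℕ with h𝒰
  have hU : (𝒰 : Filter ℕ) ≤ atTop := Nat.hyperfilter_le_atTop
  have hlim : Tendsto (fun n : ℕ => 1 / ((n : ℝ) + 1)) (𝒰 : Filter ℕ) (𝓝 0) :=
    tendsto_one_div_add_atTop_nhds_zero_nat.mono_left hU
  have hDQ := fun n => hD (Q n) (hq n).dQ (hq n).iQ
  have hKL : K ⊆ L := hKS'.trans hS'L
  set σ : ℕ → ℝ := fun n => ‖deriv (Q n) (ts n)‖ with hσ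
  set σ' : ℕ → ℝ := fun n => ‖deriv (H n) 0‖ with hσ'
  have hσp : ∀ n, 0 < σ n := fun n => (hDQ n _ (hKL (hts n)) _ (hKL (hts n))).1
  have z00 : (0 : ℂ) ∈ closedBall (0 : ℂ) ρ1 := mem_closedBall_self h0.le
  have hσp' : ∀ n, 0 < σ' n := fun n => (hD2 _ (hq n).dH (hq n).iH 0 z00 0 z00).1
  have hσt : Tendsto σ (𝒰 : Filter ℕ) (𝓝 0) := squeeze_zero (fun n => norm_nonneg _) hts2 hlim
  have hσt' : Tendsto σ' (𝒰 : Filter ℕ) (𝓝 0) := squeeze_zero (fun n => norm_nonneg _) (fun n => (hq n).sH) hlim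
  have hσc : ∀ n, ((σ n : ℝ) : ℂ) ≠ 0 := fun n => by exact_mod_cast (hσp n).ne'
  have hσc' : ∀ n, ((σ' n : ℝ) : ℂ) ≠ 0 := fun n => by exact_mod_cast (hσp' n).ne'
  have hC0 : 0 ≤ C := by
    have e1 := (hq 0).zH
    have e2 := hσp' 0
    have e3 := norm_nonneg (H 0 0 - z 0)
    by_contra hn
    push Not at hn
    have : C * ‖deriv (H 0) 0‖ < 0 := mul_neg_of_neg_of_pos hn e2
    linarith
  set G1 : ℕ → ℂ → ℂ := fun n t => (Q n t - z n) / (σ n : ℂ) with hG1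
  set G2 : ℕ → ℂ → ℂ := fun n t => (H n (b n t) - z n) / (σ' n : ℂ) with hG2
  set M : ℝ := D + C2 + C with hM
  have hMp : 0 < M := by rw [hM]; linarith
  have hbm : ∀ n, ∀ t ∈ S, b n t ∈ closedBall (0 : ℂ) ρ1 := fun n t ht => mem_closedBall_zero_iff.2 ((hq n).bb t ht)
  have hb1' : ∀ n, ∀ t ∈ S, b n t ∈ ball (0 : ℂ) 1 := fun n t ht => closedBall_subset_ball h1 (hbm n t ht)
  have B1S : ∀ n, DifferentiableOn ℂ (G1 n) S := fun n => ((hq n).dQ.sub_const _).div_const _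
  have B2S : ∀ n, DifferentiableOn ℂ (G2 n) S := fun n =>
    (((hq n).dH.comp (hq n).db (hb1' n)).sub_const _).div_const _
  have C1' : ∀ n, ∀ t ∈ L, ‖G1 n t‖ ≤ M := by
    intro n t ht
    show ‖(Q n t - z n) / (σ n : ℂ)‖ ≤ M
    rw [norm_div, Complex.norm_real, Real.norm_of_nonneg (hσp n).le, div_le_iff₀ (hσp n)]
    have e1 := (hDQ n t ht (ts n) (hKL (hts n))).2.2
    have e2 := hts1 n
    have e3 : ‖Q n t - z n‖ ≤ ‖Q n t - Q n (ts n)‖ + ‖Q n (ts n) - z n‖ := by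
      have := norm_add_le (Q n t - Q n (ts n)) (Q n (ts n) - z n)
      rwa [sub_add_sub_cancel] at this
    have e4 : 0 ≤ C2 * σ n := mul_nonneg (by linarith) (hσp n).le
    calc ‖Q n t - z n‖ ≤ D * σ n + C * σ n := e3.trans (add_le_add e1 e2)
      _ ≤ M * σ n := by rw [hM]; linarith
  have C2' : ∀ n, ∀ t ∈ S, ‖G2 n t‖ ≤ M := by
    intro n t ht
    show ‖(H n (b n t) - z n) / (σ' n : ℂ)‖ ≤ M
    rw [norm_div, Complex.norm_real, Real.norm_of_nonneg (hσp' n).le, div_le_iff₀ (hσp' n)]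
    have e1 := (hD2 _ (hq n).dH (hq n).iH _ (hbm n t ht) 0 z00).2.2.1
    rw [sub_zero] at e1
    have e1' : ‖H n (b n t) - H n 0‖ ≤ C2 * σ' n := by
      refine e1.trans ?_
      have e5 : ‖b n t‖ ≤ 1 := ((hq n).bb t ht).trans h1.le
      have e6 : 0 ≤ C2 * ‖deriv (H n) 0‖ := by positivity
      show C2 * ‖deriv (H n) 0‖ * ‖b n t‖ ≤ C2 * ‖deriv (H n) 0‖
      nlinarith
    have e2 := (hq n).zH
    have e3 : ‖H n (b n t) - z n‖ ≤ ‖H n (b n t) - H n 0‖ + ‖H n 0 - z n‖ := by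
      have := norm_add_le (H n (b n t) - H n 0) (H n 0 - z n)
      rwa [sub_add_sub_cancel] at this
    have e4 : 0 ≤ D * σ' n := mul_nonneg (by linarith) (hσp' n).le
    calc ‖H n (b n t) - z n‖ ≤ C2 * σ' n + C * σ' n := e3.trans (add_le_add e1' e2)
      _ ≤ M * σ' n := by rw [hM]; linarith
  have B1 : ∀ n, DifferentiableOn ℂ (G1 n) S' := fun n => (B1S n).mono (hS'L.trans hLS)
  have B2 : ∀ n, DifferentiableOn ℂ (G2 n) S' := fun n => (B2S n).mono (hS'L.trans hLS)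
  obtain ⟨g1, g1d, -, g1l⟩ := ulim 𝒰 hS'o (G := G1) (M := M)
    (Eventually.of_forall fun n => ⟨B1 n, fun t ht => C1' n t (hS'L ht)⟩)
  obtain ⟨g2, g2d, -, g2l⟩ := ulim 𝒰 hS'o (G := G2) (M := M)
    (Eventually.of_forall fun n => ⟨B2 n, fun t ht => C2' n t (hLS (hS'L ht))⟩)
  have hd1 := ulim_deriv 𝒰 hS'o (Eventually.of_forall B1) g1l
  -- the derivative of `g1`
  have hder : ∀ n, ∀ t, deriv (G1 n) t = deriv (Q n) t / (σ n : ℂ) := by
    intro n t
    show deriv (fun x => (Q n x - z n) / (σ n : ℂ)) t = _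
    rw [deriv_div_const, deriv_sub_const]
  have g1ne : ∀ t ∈ S', deriv g1 t ≠ 0 := by
    intro t ht h3
    have e1 : Tendsto (fun n => ‖deriv (G1 n) t‖) (𝒰 : Filter ℕ) (𝓝 ‖deriv g1 t‖) := (hd1.tendsto_at ht).norm
    have e2 : 1 / D ≤ ‖deriv g1 t‖ := by
      refine ge_of_tendsto e1 (Eventually.of_forall fun n => ?_)
      rw [hder, norm_div, Complex.norm_real, Real.norm_of_nonneg (hσp n).le, div_le_div_iff₀ (by linarith) (hσp n)]
      have e3 := (hDQ n (ts n) (hKL (hts n)) t (hS'L ht)).2.1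
      have e4 : σ n ≤ D * ‖deriv (Q n) t‖ := e3
      linarith
    rw [h3, norm_zero] at e2
    have e5 : 0 < 1 / D := by positivity
    linarith
  -- the field
  have hcp : ∀ n, ∀ w r2, ball w r2 ⊆ S' → Cp f U J δ (z n) (k n) (k' n) (σ n) (σ' n) w r2 M (G1 n) (G2 n) := by
    intro n w r2 hw
    have e1 : ∀ u, z n + (σ n : ℂ) * G1 n u = Q n u := by
      intro u
      show z n + (σ n : ℂ) * ((Q n u - z n) / (σ n : ℂ)) = Q n u
      rw [mul_div_cancel₀ _ (hσc n)]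
      ring
    have e2 : ∀ u, z n + (σ' n : ℂ) * G2 n u = H n (b n u) := by
      intro u
      show z n + (σ' n : ℂ) * ((H n (b n u) - z n) / (σ' n : ℂ)) = H n (b n u)
      rw [mul_div_cancel₀ _ (hσc' n)]
      ring
    have hwS : ball w r2 ⊆ S := hw.trans (hS'L.trans hLS)
    refine ⟨(B1 n).mono hw, (B2 n).mono hw, fun u hu => ⟨?_, C1' n u (hS'L (hw hu))⟩,
      fun u hu => ⟨?_, C2' n u (hwS hu)⟩, fun u hu => ?_, fun u hu => ?_⟩
    · rw [e1]; exact (hq n).mQ u (hwS hu)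
    · rw [e2]; exact ((hq n).mH u (hwS hu)).1
    · rw [e1, e2]; exact (hq n).eq u (hwS hu)
    · rw [e2]; exact ((hq n).mH u (hwS hu)).2
  have hconj : ∀ u ∈ S', (starRingEnd ℂ) (deriv g1 u) * deriv g2 u = (starRingEnd ℂ) (deriv g2 u) * deriv g1 u := by
    intro u hu
    obtain ⟨r2, hr2, hr2s⟩ := Metric.isOpen_iff.1 hS'o u hu
    exact gc h hX hz (Eventually.of_forall hσp) (Eventually.of_forall hσp') hσt hσt' hr2 hMp
      (Eventually.of_forall fun n => hcp n u r2 hr2s) (g1l.mono hr2s) (g2l.mono hr2s) u (mem_ball_self hr2)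
  obtain ⟨a, ha⟩ := rmul hS'o hS'c.isPreconnected g1d g2d g1ne hconj
  -- limits of the marked points
  obtain ⟨p0, hp0, hp0t⟩ := lim_cpt 𝒰 hK ht0
  obtain ⟨p0', hp0', hp0t'⟩ := lim_cpt 𝒰 hK ht0'
  obtain ⟨p1, hp1, hp1t⟩ := lim_cpt 𝒰 hK ht1
  obtain ⟨p2, hp2, hp2t⟩ := lim_cpt 𝒰 hK ht2
  have hval : ∀ {F : ℕ → ℂ → ℂ} {F0 : ℂ → ℂ} {p : ℂ} {t : ℕ → ℂ}, DifferentiableOn ℂ F0 S' →
      TendstoLocallyUniformlyOn F F0 (𝒰 : Filter ℕ) S' → p ∈ K → (∀ n, t n ∈ K) → Tendsto t (𝒰 : Filter ℕ) (𝓝 p) →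
      Tendsto (fun n => F n (t n)) (𝒰 : Filter ℕ) (𝓝 (F0 p)) := by
    intro F F0 p t hF0 hF hp ht hpt
    exact hF.tendsto_comp (hF0.continuousOn p (hKS' hp)) (hKS' hp)
      (tendsto_nhdsWithin_iff.2 ⟨hpt, Eventually.of_forall fun n => hKS' (ht n)⟩)
  -- `a ≠ 0`
  have ha0 : a ≠ 0 := by
    intro ha0
    have e1 := ha p1 (hKS' hp1) p2 (hKS' hp2)
    rw [ha0, zero_mul] at e1
    have e2 : Tendsto (fun n => ‖G2 n (t1 n) - G2 n (t2 n)‖) (𝒰 : Filter ℕ) (𝓝 ‖g2 p1 - g2 p2‖) :=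
      ((hval g2d g2l hp1 ht1 hp1t).sub (hval g2d g2l hp2 ht2 hp2t)).norm
    rw [e1, norm_zero] at e2
    have e3 : κ / C2 ≤ 0 := by
      refine ge_of_tendsto e2 (Eventually.of_forall fun n => ?_)
      have e5 : G2 n (t1 n) - G2 n (t2 n) = (H n (b n (t1 n)) - H n (b n (t2 n))) / (σ' n : ℂ) := by
        show (H n (b n (t1 n)) - z n) / (σ' n : ℂ) - (H n (b n (t2 n)) - z n) / (σ' n : ℂ) = _
        ring
      rw [e5, norm_div, Complex.norm_real, Real.norm_of_nonneg (hσp' n).le,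
        div_le_div_iff₀ (by linarith : (0 : ℝ) < C2) (hσp' n)]
      have e6 := (hD2 _ (hq n).dH (hq n).iH _ (hbm n _ (hKS (ht1 n))) _ (hbm n _ (hKS (ht2 n)))).2.2.2
      have e7 : κ * σ' n ≤ σ' n * ‖b n (t1 n) - b n (t2 n)‖ := by
        rw [mul_comm]
        exact mul_le_mul_of_nonneg_left (hb1 n) (hσp' n).le
      have e8 : σ' n * ‖b n (t1 n) - b n (t2 n)‖ ≤ C2 * ‖H n (b n (t1 n)) - H n (b n (t2 n))‖ := e6
      linarith
    have e4 : 0 < κ / C2 := by positivity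
    linarith
  -- the two points
  have hgp : g1 p0 = g1 p0' := by
    have e1 : g2 p0 = g2 p0' := by
      refine tendsto_nhds_unique (hval g2d g2l hp0 ht0 hp0t) ?_
      refine (hval g2d g2l hp0' ht0' hp0t').congr fun n => ?_
      show (H n (b n (t0' n)) - z n) / (σ' n : ℂ) = (H n (b n (t0 n)) - z n) / (σ' n : ℂ)
      rw [hb0 n]
    have e2 := ha p0 (hKS' hp0) p0' (hKS' hp0')
    rw [e1, sub_self] at e2
    have e3 := (mul_eq_zero.1 e2.symm).resolve_left ha0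
    exact sub_eq_zero.1 e3
  have hexp0 : κ ≤ ‖Complex.exp p0 - Complex.exp p0'‖ := by
    have e1 : Tendsto (fun n => ‖Complex.exp (t0 n) - Complex.exp (t0' n)‖) (𝒰 : Filter ℕ)
        (𝓝 ‖Complex.exp p0 - Complex.exp p0'‖) :=
      (((Complex.continuous_exp.tendsto _).comp hp0t).sub ((Complex.continuous_exp.tendsto _).comp hp0t')).norm
    exact ge_of_tendsto e1 (Eventually.of_forall hexp)
  -- Hurwitz
  obtain ⟨r3, hr3, hr3s⟩ := Metric.isOpen_iff.1 hS'o p0 (hKS' hp0)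
  obtain ⟨r4, hr4, hr41, hr43⟩ : ∃ r4 : ℝ, 0 < r4 ∧ r4 ≤ 1 ∧ r4 ≤ r3 :=
    ⟨min 1 r3, lt_min one_pos hr3, min_le_left _ _, min_le_right _ _⟩
  have hb4 : ball p0 r4 ⊆ S' := (ball_subset_ball hr43).trans hr3s
  have hinjn : ∀ n, InjOn (G1 n) (ball p0 r4) := by
    intro n u hu v hv he
    have e1 : (Q n u - z n) / (σ n : ℂ) = (Q n v - z n) / (σ n : ℂ) := he
    have e2 : Q n u = Q n v := by
      have := (div_left_inj' (hσc n)).1 e1
      exact sub_left_inj.1 this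
    exact inj_small (hq n).iQ hr41 (hb4.trans (hS'L.trans hLS)) hu hv e2
  have hg1inj : InjOn g1 (ball p0 r4) := by
    refine ulim_inj 𝒰 isOpen_ball (convex_ball p0 r4).isPreconnected
      (Eventually.of_forall fun n => ⟨(B1 n).mono hb4, hinjn n⟩) (g1l.mono hb4) ?_
    by_contra hcon2
    push Not at hcon2
    refine g1ne p0 (hKS' hp0) ?_
    have e1 : g1 =ᶠ[𝓝 p0] fun _ => g1 p0 := by
      filter_upwards [ball_mem_nhds p0 hr4] with u hu
      exact hcon2 u hu p0 (mem_ball_self hr4)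
    rw [e1.deriv_eq, deriv_const]
  have hsn : Tendsto (fun n => G1 n (t0' n)) (𝒰 : Filter ℕ) (𝓝 (g1 p0)) := by
    rw [hgp]
    exact hval g1d g1l hp0' ht0' hp0t'
  obtain ⟨v, hv1, hv2⟩ := ulim_pre 𝒰 isOpen_ball (Eventually.of_forall fun n => (B1 n).mono hb4) (g1l.mono hb4) hg1inj
    (mem_ball_self hr4) hsn
  have hv3 : ∀ᶠ n in (𝒰 : Filter ℕ), Complex.exp (v n) = Complex.exp (t0' n) := by
    filter_upwards [hv1] with n hn
    have e1 : (Q n (v n) - z n) / (σ n : ℂ) = (Q n (t0' n) - z n) / (σ n : ℂ) := hn.2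
    have e2 : Q n (v n) = Q n (t0' n) := by
      have := (div_left_inj' (hσc n)).1 e1
      exact sub_left_inj.1 this
    exact (hq n).iQ _ (hLS (hS'L (hb4 hn.1))) _ (hKS (ht0' n)) e2
  have hv4 : Complex.exp p0 = Complex.exp p0' := by
    have e1 : Tendsto (fun n => Complex.exp (v n)) (𝒰 : Filter ℕ) (𝓝 (Complex.exp p0)) :=
      (Complex.continuous_exp.tendsto _).comp hv2
    have e2 : Tendsto (fun n => Complex.exp (t0' n)) (𝒰 : Filter ℕ) (𝓝 (Complex.exp p0')) :=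
      (Complex.continuous_exp.tendsto _).comp hp0t'
    exact tendsto_nhds_unique (e1.congr' hv3) e2
  rw [hv4, sub_self, norm_zero] at hexp0
  linarith

end Pool.Agent.H18.LA
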