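import Pool.Agent.H18.LA.Dis
import Pool.Agent.H56.WP.Stp

/-!
# LEMMA A (ROB => DIM, chapter A; MP_8f2e1c_an): windows over small balls are small

PROOF. `sh` (H56/UD/DB) with `k = K`; `dis`: `‖deriv Φ 0‖ * ‖w - w'‖ ≤ C * ‖Φ w - Φ w'‖` for `w = 0`, `w' = ρ0`.
-/

set_option autoImplicit false

open Filter Topology Metric Set MeasureTheory

namespace Pool.Agent.H18.LA

open Pool.Agent.H56.UD Pool.Agent.H55.PB Pool.Agent.H56.WP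

variable {f : ℂ → ℂ} {U J P Cr : Set ℂ} {δ : ℝ} {η : ℂ → ℂ → ℂ} {ρ : ℝ}

theorem sm (h : PS f U J P Cr δ η ρ) {ρ0 ε1 : ℝ} (h0 : 0 < ρ0) (h1 : ρ0 < 1) (hε : 0 < ε1) : ∃ ε0 : ℝ, 0 < ε0 ∧
    ∀ (K : ℕ) (θ : ℝ) (y : ℂ) (ε : ℝ) (Φ : ℂ → ℂ), y ∈ J → ε ≤ ε0 → Wd f U J P δ K θ y ε Φ →
      (∃ v ∈ closedBall (0 : ℂ) ρ0, Φ v ∈ J) → ‖deriv Φ 0‖ ≤ ε1 := by
  obtain ⟨C, hC, hd⟩ := dis h0 h1
  obtain ⟨δ2, hδ2, hs⟩ := sh h (ρ0 := ρ0) (ε := ε1 * ρ0 / C) h0 h1 (by positivity)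
  refine ⟨δ2, hδ2, fun K θ y ε Φ hy hle hW hJ => ?_⟩
  have h3 := hs K Φ y hy hW.diff hW.inj (fun v hv => ⟨(hW.val v hv).1, ball_subset_ball hle (hW.val v hv).2⟩) hJ
  have e0 : (0 : ℂ) ∈ closedBall (0 : ℂ) ρ0 := mem_closedBall_self h0.le
  have e1 : ((ρ0 : ℝ) : ℂ) ∈ closedBall (0 : ℂ) ρ0 := by
    rw [mem_closedBall_zero_iff, Complex.norm_real, Real.norm_of_nonneg h0.le]
  have h4 := h3 _ e0 _ e1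
  have h5 := (hd Φ hW.diff hW.inj _ e0 _ e1).2.2.2
  rw [zero_sub, norm_neg, Complex.norm_real, Real.norm_of_nonneg h0.le] at h5
  have h6 : ‖deriv Φ 0‖ * ρ0 ≤ ε1 * ρ0 := by
    calc _ ≤ C * ‖Φ 0 - Φ (ρ0 : ℂ)‖ := h5
      _ ≤ C * (ε1 * ρ0 / C) := mul_le_mul_of_nonneg_left h4.le (by linarith)
      _ = _ := by field_simp
  exact le_of_mul_le_mul_right h6 h0

end Pool.Agent.H18.LA
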