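import Pool.Agent.H18.LA.Stg

/-!
# LEMMA A (ROB => DIM, chapter A; MP_8f2e1c_an): the two frames at one stage
-/

set_option autoImplicit false

open Filter Topology Metric Set MeasureTheory

namespace Pool.Agent.H18.LA

open Pool.Agent.H56.UD Pool.Agent.H55.PB Pool.Agent.H56.WP

variable {f : ℂ → ℂ} {U J P Cr E : Set ℂ} {δ b0 : ℝ} {η : ℂ → ℂ → ℂ} {ρ : ℝ} {X hh μ : ℂ → ℂ}
variable {θ ρ0 ρm D : ℝ}

/-- the radius on which both frames are defined -/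
noncomputable def rK (θ D : ℝ) : ℝ := min (1 / 2) ((1 - θ) / (32 * D) / (64 * D ^ 2))

theorem rK_pos (k : Kon θ ρ0 ρm D) : 0 < rK θ D := by
  have h1 := k.D1
  have h2 := k.t1
  exact lt_min (by norm_num) (div_pos (div_pos (by linarith) (by linarith)) (by positivity))

theorem rK_half : rK θ D ≤ 1 / 2 := min_le_left _ _

/-- points of a lift are in the domain of `f^m` if their image is near `J` -/
theorem dm_low {K m : ℕ} {w : ℂ} (h : w ∈ dm f U J δ (m + K)) (h2 : f^[m] w ∈ thickening δ J) : w ∈ dm f U J δ m := by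
  have h3 := dm_U h
  exact ⟨h3, h2⟩

theorem st3 (k : Kon θ ρ0 ρm D) (h : PS f U J P Cr δ η ρ) {z a a1 : ℂ} {K l m ms : ℕ} {y : ℂ} {θ' ε ε3 C M : ℝ}
    {Φ g gs ψ : ℂ → ℂ} (hW : Wd f U J P δ K θ y ε Φ) (ha : ‖a‖ ≤ θ) (hac : Φ a = ψ 0) (hcJ : ψ 0 ∈ J)
    (hgd : DifferentiableOn ℂ g (ball 0 1)) (hgi : InjOn g (ball 0 1))
    (hg : ∀ v ∈ ball (0 : ℂ) 1, g v ∈ dm f U J δ (m + K) ∧ f^[m] (g v) = Φ v) (hgz : ‖g 0 - z‖ ≤ C * ‖deriv g 0‖)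
    (hsd : DifferentiableOn ℂ gs (ball 0 1)) (hsi : InjOn gs (ball 0 1))
    (hs : ∀ v ∈ ball (0 : ℂ) 1, gs v ∈ dm f U J δ (ms + K) ∧ f^[ms] (gs v) = Φ v)
    (hsz : ‖gs a - z‖ * ‖deriv Φ 0‖ ≤ M * ‖deriv gs 0‖ * ‖deriv ψ 0‖)
    (hψ : Wd f U J P δ (K + l + 1) θ' y ε ψ) (ha1 : ‖a1‖ ≤ θ)
    (hf : ∀ x ∈ ball (0 : ℂ) 1, f^[l + 1] (ψ x) = Φ (bet a1 x)) (hB : ‖deriv ψ 0‖ ≤ 64 * D * ‖deriv Φ 0‖)
    (hA : 2 * D * ‖deriv Φ 0‖ < δ) (hs1 : ‖deriv g 0‖ ≤ ε3) (hs2 : 64 * D ^ 3 * ‖deriv gs 0‖ ≤ ε3) :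
    ∃ G : ℂ → ℂ, Cq f U J δ z (ms + (l + 1)) m θ (rK θ D) (max C (M * D ^ 2)) ε3 a1 G g := by
  have hD1 := k.D1
  have ht1 := k.t1
  have hD0 : 0 < D := by linarith
  have hA0 : 0 < ‖deriv Φ 0‖ := (k.hD Φ hW.diff hW.inj 0 k.zm 0 k.zm).1
  have hB0 : 0 < ‖deriv ψ 0‖ := (k.hD ψ hψ.diff hψ.inj 0 k.zm 0 k.zm).1
  have hr0 := rK_pos k
  have hrh : rK θ D ≤ 1 / 2 := rK_half
  have hr1 : rK θ D ≤ 1 := hrh.trans (by norm_num)
  have hsub : ball (0 : ℂ) (rK θ D) ⊆ ball 0 1 := ball_subset_ball hr1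
  have hρ1 : ρ0 ≤ 1 := k.r0.trans k.r1.le
  -- the transition map
  have hin : ψ '' ball 0 (rK θ D) ⊆ Φ '' ball 0 ρ0 := by
    rintro _ ⟨x, hx, rfl⟩
    apply inc k hW.diff hW.inj ha
    have hxr := mem_ball_zero_iff.1 hx
    have hxm : x ∈ closedBall (0 : ℂ) ρm := mem_closedBall_zero_iff.2 (hxr.le.trans (hrh.trans k.rh))
    have h1 := (k.hD ψ hψ.diff hψ.inj x hxm 0 k.zm).2.2.1
    rw [sub_zero] at h1
    rw [mem_ball, dist_eq_norm, hac]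
    have h2 : D * ‖deriv ψ 0‖ * ‖x‖ ≤ D * (64 * D * ‖deriv Φ 0‖) * ‖x‖ :=
      mul_le_mul_of_nonneg_right (mul_le_mul_of_nonneg_left hB hD0.le) (norm_nonneg _)
    have h3 : D * (64 * D * ‖deriv Φ 0‖) * ‖x‖ < D * (64 * D * ‖deriv Φ 0‖) * rK θ D :=
      mul_lt_mul_of_pos_left hxr (by positivity)
    have h4 : D * (64 * D * ‖deriv Φ 0‖) * rK θ D ≤
        D * (64 * D * ‖deriv Φ 0‖) * ((1 - θ) / (32 * D) / (64 * D ^ 2)) :=
      mul_le_mul_of_nonneg_left (min_le_right _ _) (by positivity)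
    have h5 : D * (64 * D * ‖deriv Φ 0‖) * ((1 - θ) / (32 * D) / (64 * D ^ 2)) = (1 - θ) / (32 * D) * ‖deriv Φ 0‖ := by
      field_simp
    linarith
  obtain ⟨T, hTd, hTi, hTv, hT0⟩ := tra hW.diff hW.inj hψ.diff hψ.inj hr0 hr1 hρ1 hin
  have h0r : (0 : ℂ) ∈ ball (0 : ℂ) (rK θ D) := mem_ball_self hr0
  have hsub0 : ball (0 : ℂ) ρ0 ⊆ ball 0 1 := ball_subset_ball hρ1
  have ham := k.am ha
  have hTa : T 0 = a := hW.inj (hsub0 (hTv 0 h0r).1) (k.sub ham) (by rw [(hTv 0 h0r).2, hac])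
  -- values
  have hbm : ∀ x ∈ ball (0 : ℂ) (rK θ D), bet a1 x ∈ closedBall (0 : ℂ) ρm := fun x hx =>
    mem_closedBall_zero_iff.2 (k.hb a1 x ha1 ((mem_ball_zero_iff.1 hx).le.trans hrh))
  have hnear : ∀ w ∈ closedBall (0 : ℂ) ρm, Φ w ∈ thickening δ J := by
    intro w hw
    rw [mem_thickening_iff]
    refine ⟨ψ 0, hcJ, ?_⟩
    rw [dist_eq_norm, ← hac]
    have h1 := (k.hD Φ hW.diff hW.inj w hw a ham).2.2.1
    have h2 : ‖w - a‖ ≤ 2 := by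
      have e1 := norm_sub_le w a
      have e2 := mem_closedBall_zero_iff.1 hw
      have e3 := k.r1
      linarith
    have h3 : D * ‖deriv Φ 0‖ * ‖w - a‖ ≤ D * ‖deriv Φ 0‖ * 2 := mul_le_mul_of_nonneg_left h2 (by positivity)
    linarith
  have hGd : DifferentiableOn ℂ (fun x => gs (T x)) (ball 0 (rK θ D)) :=
    hsd.comp hTd fun x hx => hsub0 (hTv x hx).1
  have hGv : ∀ x ∈ ball (0 : ℂ) (rK θ D), f^[ms] (gs (T x)) = ψ x := by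
    intro x hx
    rw [(hs _ (hsub0 (hTv x hx).1)).2, (hTv x hx).2]
  have hit : ∀ x ∈ ball (0 : ℂ) (rK θ D), f^[ms + (l + 1)] (gs (T x)) = Φ (bet a1 x) := by
    intro x hx
    rw [add_comm, Function.iterate_add_apply, hGv x hx, hf x (hsub hx)]
  -- the derivative of the frame
  have hdG : deriv (fun x => gs (T x)) 0 = deriv gs a * deriv T 0 := by
    have e1 : HasDerivAt gs (deriv gs (T 0)) (T 0) :=
      (hsd.differentiableAt (isOpen_ball.mem_nhds (hsub0 (hTv 0 h0r).1))).hasDerivAt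
    have e2 : HasDerivAt T (deriv T 0) 0 := (hTd.differentiableAt (isOpen_ball.mem_nhds h0r)).hasDerivAt
    have e3 : HasDerivAt (fun x => gs (T x)) (deriv gs (T 0) * deriv T 0) 0 :=
      HasDerivAt.comp (0 : ℂ) (h₂ := gs) (h := T) e1 e2
    rw [e3.deriv, hTa]
  rw [hTa] at hT0
  have hΦa : 0 < ‖deriv Φ a‖ := (k.hD Φ hW.diff hW.inj a ham a ham).1
  have hΦa1 : ‖deriv Φ a‖ ≤ D * ‖deriv Φ 0‖ := (k.hD Φ hW.diff hW.inj a ham 0 k.zm).2.1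
  have hΦa2 : ‖deriv Φ 0‖ ≤ D * ‖deriv Φ a‖ := (k.hD Φ hW.diff hW.inj 0 k.zm a ham).2.1
  have hgs1 : ‖deriv gs a‖ ≤ D * ‖deriv gs 0‖ := (k.hD gs hsd hsi a ham 0 k.zm).2.1
  have hgs2 : ‖deriv gs 0‖ ≤ D * ‖deriv gs a‖ := (k.hD gs hsd hsi 0 k.zm a ham).2.1
  have hgs0 : 0 < ‖deriv gs 0‖ := (k.hD gs hsd hsi 0 k.zm 0 k.zm).1
  have hTn : ‖deriv Φ a‖ * ‖deriv T 0‖ = ‖deriv ψ 0‖ := by rw [← norm_mul, hT0]
  have hM : 0 ≤ M := by
    by_contra hn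
    push Not at hn
    have e1 : M * ‖deriv gs 0‖ * ‖deriv ψ 0‖ < 0 :=
      mul_neg_of_neg_of_pos (mul_neg_of_neg_of_pos hn hgs0) hB0
    have e2 : 0 ≤ ‖gs a - z‖ * ‖deriv Φ 0‖ := by positivity
    linarith
  refine ⟨fun x => gs (T x), ha1, hGd, ?_, ?_, ?_, ?_, hgd, hgi, ?_, ?_, hs1, ?_⟩
  · intro x hx x' hx' he
    exact hTi hx hx' (hsi (hsub0 (hTv x hx).1) (hsub0 (hTv x' hx').1) he)
  · intro x hx
    refine dm_add' (fun i hi => dm_U (hs _ (hsub0 (hTv x hx).1)).1 i hi) ?_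
    rw [hGv x hx]
    have e1 : ψ x ∈ dm f U J δ ((l + 1) + K) := by
      have := (hψ.val x (hsub hx)).1
      rwa [add_assoc, add_comm] at this
    refine dm_low e1 ?_
    rw [hf x (hsub hx)]
    exact hnear _ (hbm x hx)
  · -- distance from `z`
    show ‖gs (T 0) - z‖ ≤ max C (M * D ^ 2) * ‖deriv (fun x => gs (T x)) 0‖
    rw [hTa, hdG, norm_mul]
    have e1 : ‖gs a - z‖ * ‖deriv Φ 0‖ ≤ M * D ^ 2 * (‖deriv gs a‖ * ‖deriv T 0‖) * ‖deriv Φ 0‖ := by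
      calc ‖gs a - z‖ * ‖deriv Φ 0‖ ≤ M * ‖deriv gs 0‖ * ‖deriv ψ 0‖ := hsz
        _ = M * ‖deriv gs 0‖ * (‖deriv Φ a‖ * ‖deriv T 0‖) := by rw [hTn]
        _ ≤ M * (D * ‖deriv gs a‖) * ((D * ‖deriv Φ 0‖) * ‖deriv T 0‖) := by
          refine mul_le_mul (mul_le_mul_of_nonneg_left hgs2 hM)
            (mul_le_mul_of_nonneg_right hΦa1 (norm_nonneg _)) (by positivity) (by positivity)
        _ = _ := by ring
    have e2 : ‖gs a - z‖ ≤ M * D ^ 2 * (‖deriv gs a‖ * ‖deriv T 0‖) := le_of_mul_le_mul_right e1 hA0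
    exact e2.trans (mul_le_mul_of_nonneg_right (le_max_right _ _) (by positivity))
  · -- the size
    show ‖deriv (fun x => gs (T x)) 0‖ ≤ ε3
    rw [hdG, norm_mul]
    refine le_trans ?_ hs2
    have e1 : (‖deriv gs a‖ * ‖deriv T 0‖) * ‖deriv Φ 0‖ ≤ 64 * D ^ 3 * ‖deriv gs 0‖ * ‖deriv Φ 0‖ := by
      calc (‖deriv gs a‖ * ‖deriv T 0‖) * ‖deriv Φ 0‖
          ≤ ((D * ‖deriv gs 0‖) * ‖deriv T 0‖) * (D * ‖deriv Φ a‖) := by
            refine mul_le_mul (mul_le_mul_of_nonneg_right hgs1 (norm_nonneg _)) hΦa2 (by positivity) (by positivity)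
        _ = D ^ 2 * ‖deriv gs 0‖ * (‖deriv Φ a‖ * ‖deriv T 0‖) := by ring
        _ = D ^ 2 * ‖deriv gs 0‖ * ‖deriv ψ 0‖ := by rw [hTn]
        _ ≤ D ^ 2 * ‖deriv gs 0‖ * (64 * D * ‖deriv Φ 0‖) := mul_le_mul_of_nonneg_left hB (by positivity)
        _ = _ := by ring
    exact le_of_mul_le_mul_right e1 hA0
  · -- the second frame
    obtain ⟨S, hS⟩ : ∃ S : Set ℂ, S = ball (0 : ℂ) 1 ∩ Φ ⁻¹' thickening δ J := ⟨_, rfl⟩
    have hSo : IsOpen S := by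
      rw [hS]
      exact hW.diff.continuousOn.isOpen_inter_preimage isOpen_ball isOpen_thickening
    have hSs : S ⊆ ball 0 1 := by rw [hS]; exact inter_subset_left
    have hSv : ∀ v ∈ S, g v ∈ dm f U J δ m ∧ f^[m] (g v) = Φ v := by
      intro v hv
      have e1 := hg v (hSs hv)
      rw [hS] at hv
      refine ⟨dm_low e1.1 ?_, e1.2⟩
      rw [e1.2]
      exact hv.2
    intro x hx
    have hbS : bet a1 x ∈ S := by
      rw [hS]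
      exact ⟨k.sub (hbm x hx), hnear _ (hbm x hx)⟩
    refine ⟨(hSv _ hbS).1, fun hz0 => ?_⟩
    have e1 := der_lift h hSo (hgd.mono hSs) hSv hbS
    rw [hz0, zero_mul] at e1
    have e2 := (k.hD Φ hW.diff hW.inj _ (hbm x hx) _ (hbm x hx)).1
    rw [← e1, norm_zero] at e2
    exact lt_irrefl _ e2
  · exact hgz.trans (mul_le_mul_of_nonneg_right (le_max_left _ _) (norm_nonneg _))
  · intro x hx
    rw [hit x hx, (hg _ (k.sub (hbm x hx))).2]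

end Pool.Agent.H18.LA
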