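import Pool.Agent.H18.LA.Cmp
import Pool.Agent.H18.LA.Ncv
import Pool.Agent.H18.LA.Sm
import Pool.Agent.H18.LA.Inv

/-!
# LEMMA A (ROB => DIM, chapter A; MP_8f2e1c_an): the constants and the comparison of the sizes at one stage
-/

set_option autoImplicit false

open Filter Topology Metric Set MeasureTheory

namespace Pool.Agent.H18.LA

open Pool.Agent.H56.UD Pool.Agent.H55.PB Pool.Agent.H56.WP
open Pool.Agent.H80.AJ (univ_cover)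

variable {f : ℂ → ℂ} {U J P Cr E : Set ℂ} {δ b0 : ℝ} {η : ℂ → ℂ → ℂ} {ρ : ℝ} {X hh μ : ℂ → ℂ}

/-- the constants -/
structure Kon (θ ρ0 ρm D : ℝ) : Prop where
  t0 : 0 < θ
  t1 : θ < 1
  e0 : ρ0 = (1 + θ) / 2
  r0 : ρ0 ≤ ρm
  rh : 1 / 2 ≤ ρm
  r1 : ρm < 1
  D1 : 1 ≤ D
  hx : ∀ a x : ℂ, ‖a‖ ≤ θ → ‖x‖ < 1 → ‖bet a x‖ ≤ ρ0 → ‖x‖ ≤ ρm
  hb : ∀ a x : ℂ, ‖a‖ ≤ θ → ‖x‖ ≤ 1 / 2 → ‖bet a x‖ ≤ ρm
  hD : ∀ g : ℂ → ℂ, DifferentiableOn ℂ g (ball 0 1) → InjOn g (ball 0 1) → ∀ w ∈ closedBall (0 : ℂ) ρm,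
    ∀ w' ∈ closedBall (0 : ℂ) ρm, 0 < ‖deriv g w‖ ∧ ‖deriv g w‖ ≤ D * ‖deriv g w'‖ ∧
      ‖g w - g w'‖ ≤ D * ‖deriv g 0‖ * ‖w - w'‖ ∧ ‖deriv g 0‖ * ‖w - w'‖ ≤ D * ‖g w - g w'‖

theorem kon_ex {θ : ℝ} (hθ : 0 < θ) (hθ1 : θ < 1) : ∃ ρ0 ρm D : ℝ, Kon θ ρ0 ρm D := by
  obtain ⟨ρ0, e0⟩ : ∃ ρ0 : ℝ, ρ0 = (1 + θ) / 2 := ⟨_, rfl⟩
  have h1 : ρ0 < 1 := by rw [e0]; linarith
  have h0 : 0 < ρ0 := by rw [e0]; linarith
  obtain ⟨q2, hq2⟩ : ∃ q2 : ℝ, q2 = Real.sqrt ((θ + ρ0) / (1 + θ * ρ0)) := ⟨_, rfl⟩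
  obtain ⟨q3, hq3⟩ : ∃ q3 : ℝ, q3 = (θ + (1 / 2) ^ 2) / (1 + θ * (1 / 2) ^ 2) := ⟨_, rfl⟩
  have hq21 : q2 < 1 := by
    rw [hq2, Real.sqrt_lt' one_pos, one_pow, div_lt_one (by positivity)]
    nlinarith
  have hq31 : q3 < 1 := by
    rw [hq3, div_lt_one (by positivity)]
    nlinarith
  obtain ⟨ρm, hm⟩ : ∃ ρm : ℝ, ρm = max (max ρ0 (1 / 2)) (max q2 q3) := ⟨_, rfl⟩
  have hm1 : ρm < 1 := by
    rw [hm]
    exact max_lt (max_lt h1 (by norm_num)) (max_lt hq21 hq31)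
  have m0 : ρ0 ≤ ρm := by rw [hm]; exact (le_max_left _ _).trans (le_max_left _ _)
  have mh : 1 / 2 ≤ ρm := by rw [hm]; exact (le_max_right _ _).trans (le_max_left _ _)
  have m2 : q2 ≤ ρm := by rw [hm]; exact (le_max_left _ _).trans (le_max_right _ _)
  have m3 : q3 ≤ ρm := by rw [hm]; exact (le_max_right _ _).trans (le_max_right _ _)
  obtain ⟨D, hD1, hD⟩ := dis (h0.trans_le m0) hm1
  refine ⟨ρ0, ρm, D, hθ, hθ1, e0, m0, mh, hm1, hD1, ?_, ?_, hD⟩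
  · intro a x ha hx hb
    refine le_trans ?_ m2
    rw [hq2]
    exact Real.le_sqrt_of_sq_le (bet_sq_le h1 hθ1 ha hx hb)
  · intro a x ha hx
    refine le_trans ?_ m3
    rw [hq3]
    exact bet_le (by norm_num) hθ1 ha hx

variable {θ ρ0 ρm D : ℝ}

theorem Kon.zm (k : Kon θ ρ0 ρm D) : (0 : ℂ) ∈ closedBall (0 : ℂ) ρm :=
  mem_closedBall_self (by linarith [k.rh])

theorem Kon.am (k : Kon θ ρ0 ρm D) {a : ℂ} (ha : ‖a‖ ≤ θ) : a ∈ closedBall (0 : ℂ) ρm := by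
  rw [mem_closedBall_zero_iff]
  have h1 := k.r0
  have h2 := k.e0
  have h3 := k.t1
  linarith

theorem Kon.sub (k : Kon θ ρ0 ρm D) : closedBall (0 : ℂ) ρm ⊆ ball 0 1 := closedBall_subset_ball k.r1

/-- the window contains a disc around `Φ a` -/
theorem inc (k : Kon θ ρ0 ρm D) {Φ : ℂ → ℂ} (hd : DifferentiableOn ℂ Φ (ball 0 1)) (hi : InjOn Φ (ball 0 1)) {a : ℂ}
    (ha : ‖a‖ ≤ θ) : ball (Φ a) ((1 - θ) / (32 * D) * ‖deriv Φ 0‖) ⊆ Φ '' ball 0 ρ0 := by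
  have ht := k.t1
  have hD1 := k.D1
  have hDa := (k.hD Φ hd hi 0 k.zm a (k.am ha)).2.1
  have hsub : ball a ((1 - θ) / 2) ⊆ ball (0 : ℂ) ρ0 := by
    intro w hw
    rw [mem_ball, dist_eq_norm] at hw
    rw [mem_ball_zero_iff, k.e0]
    have : ‖w‖ ≤ ‖w - a‖ + ‖a‖ := by
      have := norm_add_le (w - a) a
      rwa [sub_add_cancel] at this
    linarith
  have hsub1 : ball (0 : ℂ) ρ0 ⊆ ball 0 1 := ball_subset_ball (by rw [k.e0]; linarith)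
  have h1 := univ_cover (g := Φ) (c := a) (R := (1 - θ) / 2) (by linarith) (hd.mono (hsub.trans hsub1))
    (hi.mono (hsub.trans hsub1))
  refine (ball_subset_ball ?_).trans (h1.trans (image_mono hsub))
  have h2 : (1 - θ) / (32 * D) * ‖deriv Φ 0‖ ≤ (1 - θ) / (32 * D) * (D * ‖deriv Φ a‖) :=
    mul_le_mul_of_nonneg_left hDa (div_nonneg (by linarith) (by linarith))
  refine h2.trans (le_of_eq ?_)
  field_simp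
  ring

/-- no attraction: the window `ψ` over `Φ` is not much larger than `Φ` -/
theorem st1 (k : Kon θ ρ0 ρm D) {a a1 : ℂ} {N : ℕ} {Φ ψ : ℂ → ℂ} (hΦd : DifferentiableOn ℂ Φ (ball 0 1))
    (hΦi : InjOn Φ (ball 0 1)) (hψd : DifferentiableOn ℂ ψ (ball 0 1)) (hψi : InjOn ψ (ball 0 1)) (ha : ‖a‖ ≤ θ)
    (hac : Φ a = ψ 0) (ha1 : ‖a1‖ ≤ θ) (hf : ∀ x ∈ ball (0 : ℂ) 1, f^[N] (ψ x) = Φ (bet a1 x))
    (hna : ¬ f^[N] '' (ψ '' ball 0 (1 / 2)) ⊆ ψ '' ball 0 (1 / 2)) : ‖deriv ψ 0‖ ≤ 64 * D * ‖deriv Φ 0‖ := by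
  by_contra hcon
  push Not at hcon
  apply hna
  rintro _ ⟨_, ⟨x, hx, rfl⟩, rfl⟩
  have hsub : ball (0 : ℂ) (1 / 2) ⊆ ball 0 1 := ball_subset_ball (by norm_num)
  have hcov := univ_cover (g := ψ) (c := 0) (R := 1 / 2) (by norm_num) (hψd.mono hsub) (hψi.mono hsub)
  apply hcov
  have hx' := mem_ball_zero_iff.1 hx
  have hbm : bet a1 x ∈ closedBall (0 : ℂ) ρm := mem_closedBall_zero_iff.2 (k.hb a1 x ha1 hx'.le)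
  have h1 := (k.hD Φ hΦd hΦi _ hbm a (k.am ha)).2.2.1
  rw [hf x (hsub hx), mem_ball, dist_eq_norm, ← hac]
  have h2 : ‖bet a1 x - a‖ ≤ 2 := by
    have e1 := norm_sub_le (bet a1 x) a
    have e2 := mem_closedBall_zero_iff.1 hbm
    have e3 := k.r1
    have e4 := k.t1
    linarith
  have h3 : D * ‖deriv Φ 0‖ * ‖bet a1 x - a‖ ≤ D * ‖deriv Φ 0‖ * 2 :=
    mul_le_mul_of_nonneg_left h2 (mul_nonneg (by linarith [k.D1]) (norm_nonneg _))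
  linarith

/-- the good branch -/
theorem st2 (k : Kon θ ρ0 ρm D) {z a a1 : ℂ} {K m : ℕ} {y : ℂ} {ε C : ℝ} {Φ ψ g : ℂ → ℂ} {i : ℕ} {x0 : ℂ}
    (hW : Wd f U J P δ K θ y ε Φ) (hψd : DifferentiableOn ℂ ψ (ball 0 1)) (hψi : InjOn ψ (ball 0 1)) (ha : ‖a‖ ≤ θ)
    (hac : Φ a = ψ 0) (ha1 : ‖a1‖ ≤ θ) (hgd : DifferentiableOn ℂ g (ball 0 1))
    (hg : ∀ v ∈ ball (0 : ℂ) 1, g v ∈ dm f U J δ (m + K) ∧ f^[m] (g v) = Φ v) (hgi : InjOn g (ball 0 1))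
    (hgz : ‖g 0 - z‖ ≤ C * ‖deriv g 0‖) (hx0 : ‖x0‖ < 1) (hbx : ‖bet a1 x0‖ ≤ ρ0) (hψx : ψ x0 = f^[i] z)
    (hvis : ∀ u1 : ℂ, ‖u1‖ ≤ ρ0 → f^[i] z = Φ u1 → Vis f U J P δ K θ y ε Φ ρ0 z i) :
    ∃ (ms : ℕ) (gs : ℂ → ℂ), DifferentiableOn ℂ gs (ball 0 1) ∧
      (∀ v ∈ ball (0 : ℂ) 1, gs v ∈ dm f U J δ (ms + K) ∧ f^[ms] (gs v) = Φ v) ∧ InjOn gs (ball 0 1) ∧
      ‖gs a - z‖ * ‖deriv Φ 0‖ ≤ max (D ^ 3) ((D + C) * (32 * D ^ 2 / (1 - θ))) * ‖deriv gs 0‖ * ‖deriv ψ 0‖ := by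
  have hD1 := k.D1
  have ht1 := k.t1
  have hA : 0 < ‖deriv Φ 0‖ := (k.hD Φ hW.diff hW.inj 0 k.zm 0 k.zm).1
  have hB : 0 < ‖deriv ψ 0‖ := (k.hD ψ hψd hψi 0 k.zm 0 k.zm).1
  have hg0 : 0 < ‖deriv g 0‖ := (k.hD g hgd hgi 0 k.zm 0 k.zm).1
  have hx0m : x0 ∈ closedBall (0 : ℂ) ρm := mem_closedBall_zero_iff.2 (k.hx a1 x0 ha1 hx0 hbx)
  by_cases hcase : (1 - θ) / (32 * D ^ 2) * ‖deriv Φ 0‖ ≤ ‖deriv ψ 0‖
  · refine ⟨m, g, hgd, hg, hgi, ?_⟩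
    have h1 := (k.hD g hgd hgi a (k.am ha) 0 k.zm).2.2.1
    rw [sub_zero] at h1
    have hC : 0 ≤ C := by
      by_contra hn
      push Not at hn
      have : C * ‖deriv g 0‖ < 0 := mul_neg_of_neg_of_pos hn hg0
      linarith [norm_nonneg (g 0 - z)]
    have h2 : ‖g a - z‖ ≤ (D + C) * ‖deriv g 0‖ := by
      have e1 : ‖g a - z‖ ≤ ‖g a - g 0‖ + ‖g 0 - z‖ := by
        have := norm_add_le (g a - g 0) (g 0 - z)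
        rwa [sub_add_sub_cancel] at this
      have e2 : D * ‖deriv g 0‖ * ‖a‖ ≤ D * ‖deriv g 0‖ * 1 :=
        mul_le_mul_of_nonneg_left (ha.trans ht1.le) (by positivity)
      linarith
    have h3 : ‖deriv Φ 0‖ ≤ 32 * D ^ 2 / (1 - θ) * ‖deriv ψ 0‖ := by
      have e1 : (32 * D ^ 2 / (1 - θ)) * ((1 - θ) / (32 * D ^ 2) * ‖deriv Φ 0‖) ≤ 32 * D ^ 2 / (1 - θ) * ‖deriv ψ 0‖ :=
        mul_le_mul_of_nonneg_left hcase (div_nonneg (by positivity) (by linarith))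
      have e2 : (32 * D ^ 2 / (1 - θ)) * ((1 - θ) / (32 * D ^ 2) * ‖deriv Φ 0‖) = ‖deriv Φ 0‖ := by
        have : (1 - θ) ≠ 0 := by linarith
        field_simp
      linarith
    calc ‖g a - z‖ * ‖deriv Φ 0‖ ≤ ((D + C) * ‖deriv g 0‖) * (32 * D ^ 2 / (1 - θ) * ‖deriv ψ 0‖) :=
          mul_le_mul h2 h3 (norm_nonneg _) (by positivity)
      _ = ((D + C) * (32 * D ^ 2 / (1 - θ))) * ‖deriv g 0‖ * ‖deriv ψ 0‖ := by ring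
      _ ≤ _ := by
        refine mul_le_mul_of_nonneg_right (mul_le_mul_of_nonneg_right (le_max_right _ _) ?_) ?_ <;> positivity
  · push Not at hcase
    -- the point `f^i z` is in the window
    have h1 : ‖ψ x0 - ψ 0‖ ≤ D * ‖deriv ψ 0‖ * ‖x0 - 0‖ := (k.hD ψ hψd hψi x0 hx0m 0 k.zm).2.2.1
    rw [sub_zero] at h1
    have h1' : ‖ψ x0 - ψ 0‖ ≤ D * ‖deriv ψ 0‖ := by
      have : D * ‖deriv ψ 0‖ * ‖x0‖ ≤ D * ‖deriv ψ 0‖ * 1 := mul_le_mul_of_nonneg_left hx0.le (by positivity)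
      linarith
    have h2 : ψ x0 ∈ ball (Φ a) ((1 - θ) / (32 * D) * ‖deriv Φ 0‖) := by
      rw [mem_ball, dist_eq_norm, hac]
      have e1 : D * ‖deriv ψ 0‖ < D * ((1 - θ) / (32 * D ^ 2) * ‖deriv Φ 0‖) :=
        mul_lt_mul_of_pos_left hcase (by linarith)
      have e2 : D * ((1 - θ) / (32 * D ^ 2) * ‖deriv Φ 0‖) = (1 - θ) / (32 * D) * ‖deriv Φ 0‖ := by
        field_simp
      linarith
    obtain ⟨u1, hu1, hu2⟩ := inc k hW.diff hW.inj ha h2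
    obtain ⟨u2, gs, hu3, hgsW, hgs, hgz2⟩ := hvis u1 (mem_ball_zero_iff.1 hu1).le (by rw [← hψx, hu2])
    have hgsd := hgsW.diff
    have hgsi := hgsW.inj
    have hu2m : u2 ∈ closedBall (0 : ℂ) ρm := mem_closedBall_zero_iff.2 (hu3.trans k.r0)
    have hs0 : 0 < ‖deriv gs 0‖ := (k.hD gs hgsd hgsi 0 k.zm 0 k.zm).1
    refine ⟨i, gs, hgsd, hgs, hgsi, ?_⟩
    have hΦu : Φ u2 = ψ x0 := by
      rw [← (hgs u2 (k.sub hu2m)).2, hgz2, hψx]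
    have h3 := (k.hD gs hgsd hgsi a (k.am ha) u2 hu2m).2.2.1
    rw [hgz2] at h3
    have h4 := (k.hD Φ hW.diff hW.inj u2 hu2m a (k.am ha)).2.2.2
    rw [hΦu, hac] at h4
    rw [norm_sub_rev u2 a] at h4
    have h5 : ‖deriv Φ 0‖ * ‖a - u2‖ ≤ D * (D * ‖deriv ψ 0‖) :=
      h4.trans (mul_le_mul_of_nonneg_left h1' (by linarith))
    calc ‖gs a - z‖ * ‖deriv Φ 0‖ ≤ (D * ‖deriv gs 0‖ * ‖a - u2‖) * ‖deriv Φ 0‖ :=
          mul_le_mul_of_nonneg_right h3 (norm_nonneg _)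
      _ = (D * ‖deriv gs 0‖) * (‖deriv Φ 0‖ * ‖a - u2‖) := by ring
      _ ≤ (D * ‖deriv gs 0‖) * (D * (D * ‖deriv ψ 0‖)) := mul_le_mul_of_nonneg_left h5 (by positivity)
      _ = D ^ 3 * ‖deriv gs 0‖ * ‖deriv ψ 0‖ := by ring
      _ ≤ _ := by
        refine mul_le_mul_of_nonneg_right (mul_le_mul_of_nonneg_right (le_max_left _ _) ?_) ?_ <;> positivity

end Pool.Agent.H18.LA
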